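import Mathlib

/-!
# Burnside's theorem for a subset: groups with a dense subgroup in the `p`-quotients
-/

set_option autoImplicit false

namespace Pool.Agent.V7H44.DV

/-- a proper subgroup of a finite `p`-group is contained in a normal subgroup of index `p` -/
lemma exists_idxP {p : ℕ} [hp : Fact p.Prime] {P : Type*} [Group P] [Finite P] {a : ℕ}
    (hP : Nat.card P = p ^ a) {Q : Subgroup P} (hQ : Q ≠ ⊤) :
    ∃ K : Subgroup P, K.index = p ∧ K.Normal ∧ Q ≤ K := by
  obtain ⟨m, hm, hQm⟩ := (Nat.dvd_prime_pow hp.1).1 (hP ▸ Subgroup.card_subgroup_dvd_card Q)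
  have hma : m ≠ a := by
    rintro rfl
    exact hQ (Subgroup.eq_top_of_card_eq Q (by rw [hQm, hP]))
  obtain ⟨b, rfl⟩ : ∃ b, a = b + 1 := ⟨a - 1, by omega⟩
  obtain ⟨K, hK, hQK⟩ := Sylow.exists_subgroup_card_pow_prime_le (G := P) p (n := m) (m := b)
    (by rw [hP]; exact pow_dvd_pow _ (by omega)) Q hQm (by omega)
  have hKi : K.index = p := by
    have h1 := K.card_mul_index
    rw [hK, hP, pow_succ] at h1
    exact Nat.eq_of_mul_eq_mul_left (pow_pos hp.1.pos b) h1
  refine ⟨K, hKi, ?_, hQK⟩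
  refine Subgroup.normal_of_index_eq_minFac_card ?_
  rw [hKi, hP, Nat.Prime.pow_minFac hp.1 (by omega)]

section

variable {G : Type*} [Group G] [TopologicalSpace G] [IsTopologicalGroup G]

/-- **The criterion**: no open normal subgroup of index `p` which contains the set `T` contains `D`. -/
def NoSplit (p : ℕ) (T D : Set G) : Prop :=
  ∀ V : Subgroup G, V.Normal → V.index = p → IsOpen (V : Set G) → T ⊆ V → ¬ D ⊆ V

/-- **Burnside's theorem.** -/
theorem surjP {p : ℕ} [hp : Fact p.Prime] {T : Set G} (D : Subgroup G)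
    (h : NoSplit p T (D : Set G)) {U : Subgroup G} (hUn : U.Normal) {a : ℕ}
    (hUi : U.index = p ^ a) (hUo : IsOpen (U : Set G)) (hT : T ⊆ U) (g : G) :
    ∃ δ ∈ D, δ⁻¹ * g ∈ U := by
  have hUf : U.FiniteIndex := ⟨by rw [hUi]; exact (pow_pos hp.1.pos a).ne'⟩
  have hfin : Finite (G ⧸ U) := inferInstance
  set Q : Subgroup (G ⧸ U) := D.map (QuotientGroup.mk' U) with hQ
  by_cases hQt : Q = ⊤
  · have h1 : (QuotientGroup.mk' U g) ∈ Q := by rw [hQt]; trivial
    obtain ⟨δ, hδ, hδg⟩ := h1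
    exact ⟨δ, hδ, QuotientGroup.eq.1 hδg⟩
  · exfalso
    obtain ⟨K, hK, hKn, hQK⟩ := exists_idxP (p := p) (P := G ⧸ U) (a := a) (by
      rw [← hUi]; rfl) hQt
    have hUV : U ≤ K.comap (QuotientGroup.mk' U) := by
      intro u hu
      show QuotientGroup.mk' U u ∈ K
      have e : QuotientGroup.mk' U u = 1 := (QuotientGroup.eq_one_iff u).2 hu
      rw [e]
      exact one_mem K
    refine h (K.comap (QuotientGroup.mk' U)) (hKn.comap _) ?_ ?_ (fun t ht => hUV (hT ht)) ?_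
    · rw [Subgroup.index_comap_of_surjective K (QuotientGroup.mk'_surjective U), hK]
    · exact Subgroup.isOpen_mono hUV hUo
    · intro δ hδ
      exact hQK ⟨δ, hδ, rfl⟩

/-- the intersection of two normal subgroups of `p`-power index -/
lemma index_inf {p : ℕ} [hp : Fact p.Prime] {G : Type*} [Group G] {U W : Subgroup G}
    (hU : U.Normal) (hW : W.Normal) {a b : ℕ} (ha : U.index = p ^ a) (hb : W.index = p ^ b) :
    ∃ c : ℕ, (U ⊓ W).index = p ^ c := by
  have hUf : U.FiniteIndex := ⟨by rw [ha]; exact (pow_pos hp.1.pos a).ne'⟩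
  have hWf : W.FiniteIndex := ⟨by rw [hb]; exact (pow_pos hp.1.pos b).ne'⟩
  have hn : (U ⊓ W).Normal := inferInstance
  have hf : (U ⊓ W).FiniteIndex := inferInstance
  have hP : IsPGroup p (G ⧸ (U ⊓ W)) := by
    intro x
    obtain ⟨g, rfl⟩ := QuotientGroup.mk_surjective x
    refine ⟨a + b, ?_⟩
    rw [← QuotientGroup.mk_pow]
    refine (QuotientGroup.eq_one_iff _).2 ⟨?_, ?_⟩
    · rw [pow_add, pow_mul, ← ha]
      exact pow_mem (U.pow_index_mem g) _
    · rw [add_comm, pow_add, pow_mul, ← hb]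
      exact pow_mem (W.pow_index_mem g) _
  exact IsPGroup.iff_card.1 hP

/-- **Inheritance**: the criterion passes to the subgroups which contain a normal subgroup of
`p`-power index containing `T`. -/
theorem inherit {p : ℕ} [hp : Fact p.Prime] {T : Set G} (D : Subgroup G)
    (hTc : ∀ t ∈ T, ∀ r : G, r * t * r⁻¹ ∈ T)
    (h : NoSplit p T (D : Set G)) {H N : Subgroup G} (hNH : N ≤ H) (hNn : N.Normal)
    (hNi : ∃ a : ℕ, N.index = p ^ a) (hNo : IsOpen (N : Set G)) (hNT : T ⊆ N) :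
    NoSplit p (Subtype.val ⁻¹' T : Set H) (Subtype.val ⁻¹' (D : Set G) : Set H) := by
  intro U hUn hUi hUo hUT hUD
  obtain ⟨a, hNi⟩ := hNi
  have hNf : N.FiniteIndex := ⟨by rw [hNi]; exact (pow_pos hp.1.pos a).ne'⟩
  have hHf : H.FiniteIndex := Subgroup.finiteIndex_of_le hNH
  have hHo : IsOpen (H : Set G) := Subgroup.isOpen_mono hNH hNo
  have hUf : U.FiniteIndex := ⟨by rw [hUi]; exact hp.1.ne_zero⟩
  set W : Subgroup G := U.map H.subtype ⊓ N with hW
  have hWo : IsOpen (W : Set G) := by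
    refine IsOpen.inter ?_ hNo
    exact hHo.isOpenEmbedding_subtypeVal.isOpenMap _ hUo
  have hmf : (U.map H.subtype).FiniteIndex := ⟨by
    rw [Subgroup.index_map_subtype]
    exact mul_ne_zero hUf.index_ne_zero hHf.index_ne_zero⟩
  have hWf : W.FiniteIndex := inferInstance
  have hCf : W.normalCore.FiniteIndex := inferInstance
  have hWc : IsClosed (W : Set G) := Subgroup.isClosed_of_isOpen _ hWo
  have hCo : IsOpen (W.normalCore : Set G) :=
    Subgroup.isOpen_of_isClosed_of_finiteIndex _ (W.normalCore_isClosed hWc)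
  have hCn : W.normalCore.Normal := W.normalCore_normal
  have hp2 : IsPGroup p (G ⧸ W.normalCore) := by
    intro x
    obtain ⟨g, rfl⟩ := QuotientGroup.mk_surjective x
    refine ⟨a + 1, ?_⟩
    rw [← QuotientGroup.mk_pow]
    refine (QuotientGroup.eq_one_iff _).2 ?_
    intro r
    have h1 : r * g ^ p ^ a * r⁻¹ ∈ N := by
      refine hNn.conj_mem _ ?_ r
      rw [← hNi]
      exact N.pow_index_mem g
    have e : r * g ^ p ^ (a + 1) * r⁻¹ = (r * g ^ p ^ a * r⁻¹) ^ p := by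
      rw [conj_pow, ← pow_mul, ← pow_succ]
    rw [e]
    refine ⟨?_, pow_mem h1 _⟩
    refine ⟨(⟨r * g ^ p ^ a * r⁻¹, hNH h1⟩ : H) ^ p, ?_, rfl⟩
    have := U.pow_index_mem (⟨r * g ^ p ^ a * r⁻¹, hNH h1⟩ : H)
    rwa [hUi] at this
  obtain ⟨c, hc⟩ := IsPGroup.iff_card.1 hp2
  have hCT : T ⊆ (W.normalCore : Set G) := by
    intro σ hσ r
    have h1 : r * σ * r⁻¹ ∈ T := hTc σ hσ r
    have h2 : r * σ * r⁻¹ ∈ N := hNT h1
    exact ⟨⟨⟨r * σ * r⁻¹, hNH h2⟩, hUT h1, rfl⟩, h2⟩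
  -- `U` is everything
  have hall : ∀ x : H, x ∈ U := by
    intro x
    obtain ⟨δ, hδ, hδU⟩ := surjP D h hCn (a := c) hc hCo hCT (x : G)
    have h3 : δ⁻¹ * (x : G) ∈ W := W.normalCore_le hδU
    obtain ⟨⟨u, hu1, hu2⟩, h4⟩ := h3
    have hu2' : (u : G) = δ⁻¹ * x := hu2
    have hδH : δ = x * (u : G)⁻¹ := by rw [hu2']; group
    have hδH' : δ ∈ H := by rw [hδH]; exact mul_mem x.2 (inv_mem u.2)
    have h5 : (⟨δ, hδH'⟩ : H) ∈ U := hUD hδ
    have e : x = (⟨δ, hδH'⟩ : H) * u := by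
      apply Subtype.ext
      show (x : G) = δ * (u : G)
      rw [hu2']; group
    rw [e]
    exact mul_mem h5 hu1
  have htop : U = ⊤ := eq_top_iff.2 fun x _ => hall x
  rw [htop, Subgroup.index_top] at hUi
  exact hp.1.one_lt.ne hUi

end

end Pool.Agent.V7H44.DV
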