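import Pool.Agent.R384.Z.Pot
import Pool.Agent.V7H44.DV.Grp

/-!
# Congruence subgroups of residually unipotent representations: any residue characteristic
-/

set_option autoImplicit false
set_option linter.unusedSectionVars false

namespace Pool.Agent.V7H44.DV

open Pool.Agent.Z384
open IsLocalRing Matrix

section mat

variable {A : Type*} [CommRing A] {n : ℕ} [IsLocalRing A]

lemma one_add_pow_sub {I : Ideal A} {k : ℕ} {X : Matrix (Fin n) (Fin n) A}
    (hX : InI (I ^ k) (X - 1)) (j : ℕ) :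
    InI (I ^ (k + k)) (X ^ j - 1 - (j : A) • (X - 1)) := by
  induction j with
  | zero => intro a b; simp
  | succ j ih =>
    have e : X ^ (j + 1) - 1 - ((j + 1 : ℕ) : A) • (X - 1) =
        X * (X ^ j - 1 - (j : A) • (X - 1)) + (j : A) • ((X - 1) * (X - 1)) := by
      rw [pow_succ' X j, Nat.cast_succ, add_smul, one_smul, mul_sub, mul_sub, mul_one, mul_smul_comm]
      have e2 : (j : A) • ((X - 1) * (X - 1)) = (j : A) • (X * (X - 1)) - (j : A) • (X - 1) := by
        rw [sub_mul X 1 (X - 1), one_mul, smul_sub]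
      rw [e2]
      abel
    rw [e]
    refine InI.add (ih.mulL X) (fun a b => ?_)
    rw [Matrix.smul_apply, smul_eq_mul]
    refine Ideal.mul_mem_left _ _ ?_
    rw [pow_add]
    exact (hX.mul hX) a b

lemma liftP {p : ℕ} (hp : (p : A) ∈ maximalIdeal A) {X : Matrix (Fin n) (Fin n) A}
    (hX : InI (maximalIdeal A) (X - 1)) (m : ℕ) :
    InI (maximalIdeal A ^ (m + 1)) (X ^ p ^ m - 1) := by
  induction m with
  | zero => simpa using hX
  | succ m ih =>
    have h1 := one_add_pow_sub (k := m + 1) ih p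
    have e : X ^ p ^ (m + 1) - 1 = ((X ^ p ^ m) ^ p - 1 - (p : A) • (X ^ p ^ m - 1)) +
        (p : A) • (X ^ p ^ m - 1) := by
      rw [pow_succ, pow_mul]
      abel
    rw [e]
    refine InI.add (h1.mono (Ideal.pow_le_pow_right (by omega))) (fun i j => ?_)
    rw [Matrix.smul_apply, smul_eq_mul, mul_comm, pow_succ]
    exact Ideal.mul_mem_mul (ih i j) hp

lemma lift1P {p : ℕ} [hpp : Fact p.Prime] (hp : (p : A) ∈ maximalIdeal A)
    {X : Matrix (Fin n) (Fin n) A} {N : ℕ}
    (hX : InI (maximalIdeal A) ((X - 1) ^ N)) : InI (maximalIdeal A) (X ^ p ^ N - 1) := by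
  set f : Matrix (Fin n) (Fin n) A →+* Matrix (Fin n) (Fin n) (ResidueField A) :=
    (residue A).mapMatrix with hf
  have hz : ∀ Z : Matrix (Fin n) (Fin n) A, InI (maximalIdeal A) Z ↔ f Z = 0 := by
    intro Z
    constructor
    · intro h
      ext i j
      exact (residue_eq_zero_iff _).2 (h i j)
    · intro h i j
      exact (residue_eq_zero_iff _).1 (congrFun (congrFun h i) j)
  have hc : CharP (ResidueField A) p := by
    have h0 : ((p : ℕ) : ResidueField A) = 0 := by
      have : residue A (p : A) = 0 := (residue_eq_zero_iff _).2 hp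
      rwa [map_natCast] at this
    obtain ⟨q, hq⟩ := CharP.exists (ResidueField A)
    have hd := (CharP.cast_eq_zero_iff (ResidueField A) q p).1 h0
    rcases (Nat.dvd_prime hpp.1).1 hd with h | h
    · subst h
      exact absurd rfl (CharP.char_ne_one (ResidueField A) 1)
    · subst h
      exact hq
  rw [hz] at hX ⊢
  have hc2 : CharP (Matrix (Fin n) (Fin n) (ResidueField A)) p ∨ n = 0 := by
    rcases Nat.eq_zero_or_pos n with h | h
    · exact Or.inr h
    · have : Nonempty (Fin n) := ⟨⟨0, h⟩⟩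
      exact Or.inl inferInstance
  rcases hc2 with hc2 | hn
  · rw [map_sub, map_pow, map_one] at *
    have h3 : (f X - 1) ^ p ^ N = f X ^ p ^ N - 1 := by
      have := sub_pow_char_pow_of_commute p N (Commute.one_right (f X))
      rwa [one_pow] at this
    rw [← h3]
    obtain ⟨k, hk⟩ : ∃ k, p ^ N = N + k :=
      ⟨p ^ N - N, by have := Nat.lt_pow_self hpp.1.one_lt (n := N); omega⟩
    rw [hk, pow_add]
    have h4 : (f X - 1) ^ N = 0 := by
      have := hX
      rwa [map_sub, map_one] at this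
    rw [h4, zero_mul]
  · subst hn
    exact Subsingleton.elim _ _

end mat

section rep

variable {A : Type*} [CommRing A] [IsLocalRing A] [IsNoetherianRing A] {n : ℕ}
variable {G : Type*} [Group G]

lemma cong_indexP {p : ℕ} [hpp : Fact p.Prime] (hp : (p : A) ∈ maximalIdeal A)
    (hfin : Finite (ResidueField A)) (ρ : G →* GL (Fin n) A)
    (hres : ∀ σ, ∃ N : ℕ, InI (maximalIdeal A) (((ρ σ : Matrix (Fin n) (Fin n) A) - 1) ^ N)) (m : ℕ) :
    ∃ b : ℕ, (cong ρ m).index = p ^ b := by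
  have hf1 : Finite (A ⧸ maximalIdeal A) := hfin
  have hf2 : Finite (A ⧸ maximalIdeal A ^ m) :=
    Ideal.finite_quotient_pow (IsNoetherian.noetherian (maximalIdeal A)) m
  have hf3 : Finite (Matrix (Fin n) (Fin n) (A ⧸ maximalIdeal A ^ m)) := inferInstance
  have hf4 : Finite (GL (Fin n) (A ⧸ maximalIdeal A ^ m)) := Finite.of_injective
    (fun u : GL (Fin n) (A ⧸ maximalIdeal A ^ m) =>
      (u : Matrix (Fin n) (Fin n) (A ⧸ maximalIdeal A ^ m))) Units.val_injective
  have hf5 : (cong ρ m).FiniteIndex := by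
    unfold cong
    infer_instance
  have hn := cong_normal ρ m
  have hP : IsPGroup p (G ⧸ cong ρ m) := by
    intro x
    obtain ⟨g, rfl⟩ := QuotientGroup.mk_surjective x
    obtain ⟨N, hN⟩ := hres g
    refine ⟨N + m, ?_⟩
    rw [← QuotientGroup.mk_pow]
    refine (QuotientGroup.eq_one_iff _).2 (mem_cong.2 ?_)
    have h3 := liftP hp (lift1P hp hN) m
    have e : (ρ (g ^ p ^ (N + m)) : Matrix (Fin n) (Fin n) A) =
        ((ρ g : Matrix (Fin n) (Fin n) A) ^ p ^ N) ^ p ^ m := by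
      rw [map_pow, Units.val_pow_eq_pow_val, ← pow_mul, ← pow_add]
    rw [e]
    exact h3.mono (Ideal.pow_le_pow_right (by omega))
  obtain ⟨b, hb⟩ := IsPGroup.iff_card.1 hP
  exact ⟨b, hb⟩

/-- **Density** for one representation. -/
theorem dense_of_noSplit [TopologicalSpace G] [IsTopologicalGroup G] [TopologicalSpace A]
    {p : ℕ} [hpp : Fact p.Prime] (hp : (p : A) ∈ maximalIdeal A) (hA : IsAdic (maximalIdeal A))
    (hfin : Finite (ResidueField A)) {ρ : G →* GL (Fin n) A}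
    (hρ : ∀ i j, Continuous fun σ => (ρ σ : Matrix (Fin n) (Fin n) A) i j)
    (hres : ∀ σ, ∃ N : ℕ, InI (maximalIdeal A) (((ρ σ : Matrix (Fin n) (Fin n) A) - 1) ^ N))
    {T : Set G} {D : Subgroup G} (h : NoSplit p T (D : Set G)) (hT : ∀ σ ∈ T, ρ σ = 1)
    (m : ℕ) (g : G) : ∃ δ ∈ D, δ⁻¹ * g ∈ cong ρ m := by
  obtain ⟨b, hb⟩ := cong_indexP hp hfin ρ hres m
  refine surjP D h (cong_normal ρ m) hb (cong_open hA hρ m) (fun σ hσ => ?_) g
  show GeneralLinearGroup.map (n := Fin n) (Ideal.Quotient.mk (maximalIdeal A ^ m)) (ρ σ) = 1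
  rw [hT σ hσ, map_one]

/-- **Density** for two representations at once. -/
theorem dense_of_noSplit₂ [TopologicalSpace G] [IsTopologicalGroup G] [TopologicalSpace A]
    {p : ℕ} [hpp : Fact p.Prime] (hp : (p : A) ∈ maximalIdeal A) (hA : IsAdic (maximalIdeal A))
    (hfin : Finite (ResidueField A)) {n' : ℕ} {ρ : G →* GL (Fin n) A} {ρ' : G →* GL (Fin n') A}
    (hρ : ∀ i j, Continuous fun σ => (ρ σ : Matrix (Fin n) (Fin n) A) i j)
    (hρ' : ∀ i j, Continuous fun σ => (ρ' σ : Matrix (Fin n') (Fin n') A) i j)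
    (hres : ∀ σ, ∃ N : ℕ, InI (maximalIdeal A) (((ρ σ : Matrix (Fin n) (Fin n) A) - 1) ^ N))
    (hres' : ∀ σ, ∃ N : ℕ, InI (maximalIdeal A) (((ρ' σ : Matrix (Fin n') (Fin n') A) - 1) ^ N))
    {T : Set G} {D : Subgroup G} (h : NoSplit p T (D : Set G)) (hT : ∀ σ ∈ T, ρ σ = 1)
    (hT' : ∀ σ ∈ T, ρ' σ = 1)
    (m : ℕ) (g : G) : ∃ δ ∈ D, δ⁻¹ * g ∈ cong ρ m ∧ δ⁻¹ * g ∈ cong ρ' m := by
  obtain ⟨b, hb⟩ := cong_indexP hp hfin ρ hres m
  obtain ⟨b', hb'⟩ := cong_indexP hp hfin ρ' hres' m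
  obtain ⟨c, hc⟩ := index_inf (cong_normal ρ m) (cong_normal ρ' m) hb hb'
  have hn1 := cong_normal ρ m
  have hn2 := cong_normal ρ' m
  have hTU : T ⊆ ((cong ρ m ⊓ cong ρ' m : Subgroup G) : Set G) := by
    intro σ hσ
    refine ⟨?_, ?_⟩
    · show GeneralLinearGroup.map (n := Fin n) (Ideal.Quotient.mk (maximalIdeal A ^ m)) (ρ σ) = 1
      rw [hT σ hσ, map_one]
    · show GeneralLinearGroup.map (n := Fin n') (Ideal.Quotient.mk (maximalIdeal A ^ m)) (ρ' σ) = 1
      rw [hT' σ hσ, map_one]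
  obtain ⟨δ, hδ, h1, h2⟩ := surjP (U := cong ρ m ⊓ cong ρ' m) D h inferInstance hc
    ((cong_open hA hρ m).inter (cong_open hA hρ' m)) hTU g
  exact ⟨δ, hδ, h1, h2⟩

end rep

end Pool.Agent.V7H44.DV
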