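import Pool.Agent.V7H44.DV.Stm

/-!
# One place decides: the theorems in the form of the statements
-/

set_option autoImplicit false

namespace Pool.Agent.V7H44.DVS

open IsLocalRing Matrix Pool.Agent.Z384

section group

variable {G : Type} [Group G]

lemma sub_map {H : Subgroup G} (V : Subgroup H) : (V.map H.subtype).subgroupOf H = V :=
  Subgroup.comap_map_eq_self_of_injective H.subtype_injective V

lemma map_le {H : Subgroup G} (V : Subgroup H) : V.map H.subtype ≤ H := by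
  rintro _ ⟨x, -, rfl⟩
  exact x.2

/-- the homomorphism on the subgroup -/
def toRep {A : Type} [CommRing A] {n : ℕ} {H : Subgroup G} {ρ : G → Matrix (Fin n) (Fin n) A}
    (h1 : ρ 1 = 1) (hm : ∀ σ ∈ H, ∀ τ ∈ H, ρ (σ * τ) = ρ σ * ρ τ) : H →* GL (Fin n) A :=
  MonoidHom.toHomUnits
    { toFun := fun σ : H => ρ σ
      map_one' := h1
      map_mul' := fun σ τ => hm σ σ.2 τ τ.2 }

end group

variable {G : Type} [Group G] [TopologicalSpace G] {p : ℕ} [hpp : Fact p.Prime]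

omit hpp in
theorem nonSplit_of {H : Subgroup G} {T : Set G} {D : Subgroup G}
    (h : DV.NoSplit p (Subtype.val ⁻¹' T : Set H) ((D.subgroupOf H : Subgroup H) : Set H)) :
    NonSplit p H T D := by
  intro V hV hu
  have hn : (V.subgroupOf H).Normal := ⟨fun σ hσ r => hV.normal σ hσ r r.2⟩
  have h1 := h (V.subgroupOf H) hn hV.index (hV.isOpen.preimage continuous_subtype_val)
    (fun σ hσ => hu σ σ.2 hσ)
  rw [Set.not_subset] at h1
  obtain ⟨δ, h2, h3⟩ := h1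
  exact ⟨δ, δ.2, h2, h3⟩

omit hpp in
theorem nonSplit_to [IsTopologicalGroup G] {H : Subgroup G} (hH : IsOpen (H : Set G)) {T : Set G}
    {D : Subgroup G} (h : NonSplit p H T D) :
    DV.NoSplit p (Subtype.val ⁻¹' T : Set H) ((D.subgroupOf H : Subgroup H) : Set H) := by
  intro V hVn hVi hVo hu hD
  have h1 : OpenNormal (V.map H.subtype) H p := by
    refine ⟨map_le V, ?_, ?_, ?_⟩
    · exact hH.isOpenEmbedding_subtypeVal.isOpenMap _ hVo
    · rintro _ ⟨x, hx, rfl⟩ r hr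
      exact ⟨(⟨r, hr⟩ : H) * x * (⟨r, hr⟩ : H)⁻¹, hVn.conj_mem x hx ⟨r, hr⟩, rfl⟩
    · rw [← hVi]
      show ((V.map H.subtype).subgroupOf H).index = V.index
      rw [sub_map]
  obtain ⟨δ, hδ, h2, h3⟩ := h _ h1 (fun σ hσ hσ' => ⟨⟨σ, hσ⟩, hu hσ', rfl⟩)
  exact h3 ⟨⟨δ, hδ⟩, hD h2, rfl⟩

/-- **Inheritance.** -/
theorem inherit [IsTopologicalGroup G] {K L : Subgroup G} (hK : IsOpen (K : Set G)) {T : Set G}
    (hT : ∀ t ∈ T, ∀ r ∈ K, r * t * r⁻¹ ∈ T) {D : Subgroup G} (h : NonSplit p K T D)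
    (hL : InPExtension p K L T) : NonSplit p L T D := by
  obtain ⟨hLK, N, a, hNL, hN, hu⟩ := hL
  have h1 := DV.inherit (G := K) (D.subgroupOf K) (T := (Subtype.val ⁻¹' T : Set K))
    (fun t ht r => hT t ht r r.2) (nonSplit_to hK h) (H := L.subgroupOf K)
    (N := N.subgroupOf K) (fun x hx => hNL hx) ⟨fun σ hσ r => hN.normal σ hσ r r.2⟩ ⟨a, hN.index⟩
    (hN.isOpen.preimage continuous_subtype_val) (fun σ hσ => hu σ σ.2 hσ)
  have h2 := DV.NoSplit.equiv (Subgroup.subgroupOfEquivOfLe hLK) (by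
    refine Continuous.subtype_mk ?_ _
    exact continuous_subtype_val.comp continuous_subtype_val) h1
  exact nonSplit_of h2

section rep

variable {H H' : Subgroup G} {T : Set G} {D : Subgroup G}
variable {A : Type} [CommRing A] [IsLocalRing A] [TopologicalSpace A] {n n' : ℕ}

lemma rep_cont {ρ : G → Matrix (Fin n) (Fin n) A} (h : IsRep H H' T ρ) (i j : Fin n) :
    Continuous fun σ => (toRep h.one h.mul σ : Matrix (Fin n) (Fin n) A) i j :=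
  continuousOn_iff_continuous_domRestrict.1 (h.cont i j)

variable [IsTopologicalGroup G]

lemma dense {F : Type} [Field F] [Algebra A F] (hA : Coefficients p A F)
    (hH : H' ≤ H) (ho : IsOpen (H' : Set G)) (h : NonSplit p H' T D)
    {ρ : G → Matrix (Fin n) (Fin n) A} (hρ : IsRep H H' T ρ)
    {ρ' : G → Matrix (Fin n') (Fin n') A} (hρ' : IsRep H H' T ρ') (m : ℕ) (g : H)
    (hg : (g : G) ∈ H') : ∃ δ : H, (δ : G) ∈ H' ∧ (δ : G) ∈ D ∧
      δ⁻¹ * g ∈ cong (toRep hρ.one hρ.mul) m ∧ δ⁻¹ * g ∈ cong (toRep hρ'.one hρ'.mul) m := by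
  have := hA.noetherian
  have hcont : Continuous (Subgroup.inclusion hH) :=
    Continuous.subtype_mk continuous_subtype_val _
  obtain ⟨δ, h1, h2, h3⟩ := DV.dense_of_noSplit₂ hA.mem hA.adic hA.finite
    (ρ := (toRep hρ.one hρ.mul).comp (Subgroup.inclusion hH))
    (ρ' := (toRep hρ'.one hρ'.mul).comp (Subgroup.inclusion hH))
    (fun i j => (rep_cont hρ i j).comp hcont) (fun i j => (rep_cont hρ' i j).comp hcont)
    (fun σ => hρ.unipotent σ σ.2) (fun σ => hρ'.unipotent σ σ.2) (nonSplit_to ho h)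
    (fun σ hσ => Units.ext (hρ.unramified σ σ.2 hσ))
    (fun σ hσ => Units.ext (hρ'.unramified σ σ.2 hσ)) m ⟨g, hg⟩
  exact ⟨Subgroup.inclusion hH δ, δ.2, h1, h2, h3⟩

theorem density {F : Type} [Field F] [Algebra A F] (hA : Coefficients p A F)
    (hH : H' ≤ H) (ho : IsOpen (H' : Set G)) (h : NonSplit p H' T D)
    {ρ : G → Matrix (Fin n) (Fin n) A} (hρ : IsRep H H' T ρ) (m : ℕ) (σ : G) (hσ : σ ∈ H') :
    ∃ δ ∈ H', δ ∈ D ∧ ∀ i j, ρ σ i j - ρ δ i j ∈ maximalIdeal A ^ m := by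
  have := hA.noetherian
  obtain ⟨δ, h1, h2, h3, -⟩ := dense hA hH ho h hρ hρ m ⟨σ, hH hσ⟩ hσ
  refine ⟨δ, h1, h2, fun i j => ?_⟩
  set r := toRep hρ.one hρ.mul with hr
  have e1 : (r ⟨σ, hH hσ⟩ : Matrix (Fin n) (Fin n) A) - (r δ : Matrix (Fin n) (Fin n) A) =
      (r δ : Matrix (Fin n) (Fin n) A) *
        ((r (δ⁻¹ * ⟨σ, hH hσ⟩) : Matrix (Fin n) (Fin n) A) - 1) := by
    rw [Matrix.mul_sub, Matrix.mul_one, ← Units.val_mul, ← map_mul, mul_inv_cancel_left]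
  show ((r ⟨σ, hH hσ⟩ : Matrix (Fin n) (Fin n) A) - (r δ : Matrix (Fin n) (Fin n) A)) i j ∈ _
  rw [e1]
  exact DV.InI.mulL' (mem_cong.1 h3) _ i j

theorem traces {F : Type} [Field F] [Algebra A F] (hA : Coefficients p A F)
    (hH : H' ≤ H) (ho : IsOpen (H' : Set G)) (h : NonSplit p H' T D)
    {ρ : G → Matrix (Fin n) (Fin n) A} (hρ : IsRep H H' T ρ)
    {ρ' : G → Matrix (Fin n') (Fin n') A} (hρ' : IsRep H H' T ρ')
    (ht : ∀ δ ∈ H', δ ∈ D → (ρ δ).trace = (ρ' δ).trace) (σ : G) (hσ : σ ∈ H') :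
    (ρ σ).trace = (ρ' σ).trace := by
  have := hA.noetherian
  refine DV.trace_of_dense (ρ := toRep hρ.one hρ.mul) (ρ' := toRep hρ'.one hρ'.mul)
    (g := ⟨σ, hH hσ⟩) fun m => ?_
  obtain ⟨δ, h1, h2, h3, h4⟩ := dense hA hH ho h hρ hρ' m ⟨σ, hH hσ⟩ hσ
  exact ⟨δ, ⟨h3, h4⟩, ht δ h1 h2⟩

theorem maps {F : Type} [Field F] [Algebra A F] (hA : Coefficients p A F)
    (hH : H' ≤ H) (ho : IsOpen (H' : Set G)) (h : NonSplit p H' T D)
    {ρ : G → Matrix (Fin n) (Fin n) A} (hρ : IsRep H H' T ρ)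
    {ρ' : G → Matrix (Fin n') (Fin n') A} (hρ' : IsRep H H' T ρ')
    (X : Matrix (Fin n') (Fin n) F) (hX : ∀ δ ∈ H', δ ∈ D → Commutes F ρ ρ' X δ) (σ : G)
    (hσ : σ ∈ H') : Commutes F ρ ρ' X σ := by
  have := hA.noetherian
  have := hA.fraction
  refine DV.mem_itw.1 (DV.itw_of_lim (F := F) (toRep hρ.one hρ.mul) (toRep hρ'.one hρ'.mul) X
    (x := ⟨σ, hH hσ⟩) fun m => ?_)
  obtain ⟨δ, h1, h2, h3, h4⟩ := dense hA hH ho h hρ hρ' m ⟨σ, hH hσ⟩ hσ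
  exact ⟨δ, hX δ h1 h2, h3, h4⟩

omit [TopologicalSpace G] [IsTopologicalGroup G] in
lemma covered (hH : H' ≤ H) {D' : Subgroup G} (h : FinitelyCovered H {δ | δ ∈ H' ∧ δ ∈ D} D') :
    ∃ R : Set H, R.Finite ∧ ∀ δ : H, (δ : G) ∈ H' → (δ : G) ∈ D →
      ∃ r ∈ R, r⁻¹ * δ ∈ D'.subgroupOf H := by
  obtain ⟨hD, R, hRf, hR⟩ := h
  refine ⟨Subtype.val ⁻¹' R, hRf.preimage Subtype.val_injective.injOn, ?_⟩
  intro δ h1 h2
  obtain ⟨r, hr, h3⟩ := hR δ ⟨h1, h2⟩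
  have h4 : r ∈ H := by
    have h6 : r = (δ : G) * (r⁻¹ * (δ : G))⁻¹ := by group
    rw [h6]
    exact mul_mem δ.2 (inv_mem (hD h3))
  exact ⟨⟨r, h4⟩, hr, h3⟩

variable [CompactSpace G]

lemma fin_index (ho : IsOpen (H' : Set G)) : (H'.subgroupOf H).FiniteIndex := by
  have : Finite (G ⧸ H') := Subgroup.quotient_finite_of_isOpen H' ho
  have h1 : H'.FiniteIndex := Subgroup.finiteIndex_of_finite_quotient
  infer_instance

theorem dihedral {F : Type} [Field F] [Algebra A F] (hA : Coefficients p A F)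
    (hH : H' ≤ H) (ho : IsOpen (H' : Set G)) (h : NonSplit p H' T D)
    {ρ : G → Matrix (Fin 2) (Fin 2) A} (hρ : IsRep H H' T ρ) (hirr : Irreducible F H ρ)
    (hord : PotentiallyOrdinary F H ρ {δ | δ ∈ H' ∧ δ ∈ D}) : Dihedral F H ρ := by
  have := hA.noetherian
  have := hA.fraction
  obtain ⟨D', v, hc, hv, hD', δ₀, hδ₀, hk⟩ := hord
  obtain ⟨R, hRf, hR⟩ := covered hH hc
  obtain ⟨U, h1, h2, h3⟩ := DV.dih_sub (F := F) (G := H) hA.adic (ρ := toRep hρ.one hρ.mul)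
    (rep_cont hρ) (H := H'.subgroupOf H) (fin_index ho)
    (D := {δ | ((δ : H) : G) ∈ H' ∧ ((δ : H) : G) ∈ D})
    (fun m g => by
      obtain ⟨δ, h1, h2, h3, -⟩ := dense hA hH ho h hρ hρ m (g : H) g.2
      exact ⟨⟨δ, h1⟩, ⟨h1, h2⟩, h3⟩)
    (D' := D'.subgroupOf H) (R := R) hRf (fun δ hδ => hR δ hδ.1 hδ.2)
    (fun W hW => hirr W fun σ hσ w hw => hW ⟨σ, hσ⟩ w hw) hv (fun δ hδ => hD' δ hδ) (by
      refine ⟨⟨δ₀, hc.1 hδ₀⟩, hδ₀, fun k hk0 c hc => ?_⟩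
      have := hk k hk0 c hc
      rw [RingHom.map_det]
      exact this)
  have hHo : IsOpen (H : Set G) := Subgroup.isOpen_mono hH ho
  refine ⟨U.map H.subtype, v, ⟨map_le U, ?_, ?_, ?_⟩, hv, ?_⟩
  · exact hHo.isOpenEmbedding_subtypeVal.isOpenMap _ h2
  · have hn : U.Normal := Subgroup.normal_of_index_eq_two h1
    rintro _ ⟨x, hx, rfl⟩ r hr
    exact ⟨(⟨r, hr⟩ : H) * x * (⟨r, hr⟩ : H)⁻¹, hn.conj_mem x hx ⟨r, hr⟩, rfl⟩
  · rw [← h1]
    show ((U.map H.subtype).subgroupOf H).index = U.index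
    rw [sub_map]
  · rintro _ ⟨x, hx, rfl⟩
    exact h3 x hx

theorem twists {F : Type} [Field F] [Algebra A F] (hA : Coefficients p A F)
    (hH : H' ≤ H) (ho : IsOpen (H' : Set G)) (h : NonSplit p H' T D) (hn : 0 < n)
    {ρ ρ' : G → Matrix (Fin n) (Fin n) A} (hρ : IsRep H H' T ρ)
    (hρ' : IsRep H H' T ρ') (hend : NoEndomorphisms F H ρ)
    (X : Matrix (Fin n) (Fin n) F) (hX : IsUnit X)
    (hp : ∃ D' : Subgroup G, FinitelyCovered H {δ | δ ∈ H' ∧ δ ∈ D} D' ∧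
      ∀ δ ∈ D', Commutes F ρ ρ' X δ) : IsTwist F H ρ ρ' X := by
  classical
  have := hA.noetherian
  have := hA.fraction
  obtain ⟨D', hc, hD'⟩ := hp
  obtain ⟨R, hRf, hR⟩ := covered hH hc
  obtain ⟨Y, rfl⟩ := hX
  have hHo : IsOpen (H : Set G) := Subgroup.isOpen_mono hH ho
  obtain ⟨g1, g2⟩ := DV.itw_open (F := F) (G := H) hA.adic (ρ := toRep hρ.one hρ.mul)
    (ρ' := toRep hρ'.one hρ'.mul) (rep_cont hρ) (rep_cont hρ') (H := H'.subgroupOf H)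
    (fin_index ho) (D := {δ | ((δ : H) : G) ∈ H' ∧ ((δ : H) : G) ∈ D})
    (fun m g => by
      obtain ⟨δ, h1, h2, h3, h4⟩ := dense hA hH ho h hρ hρ' m (g : H) g.2
      exact ⟨⟨δ, h1⟩, ⟨h1, h2⟩, h3, h4⟩)
    (R := R) hRf (X := (Y : Matrix (Fin n) (Fin n) F)) (fun δ hδ => by
      obtain ⟨r, hr, h1⟩ := hR δ hδ.1 hδ.2
      exact ⟨r, hr, hD' _ h1⟩)
  obtain ⟨χ, k, hk, h1, ⟨U, hU, h2⟩, h3⟩ := DV.twist (G := H) hn g1 g2
    (fun U _ hUo Z hZ => hend (U.map H.subtype) (map_le U)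
      (hHo.isOpenEmbedding_subtypeVal.isOpenMap _ hUo) Z (by
        rintro _ ⟨x, hx, rfl⟩
        exact hZ x hx))
  refine ⟨fun σ => if hσ : σ ∈ H then (χ ⟨σ, hσ⟩ : F) else 1, k, hk, ?_, ?_,
    ⟨U.map H.subtype, map_le U, hHo.isOpenEmbedding_subtypeVal.isOpenMap _ hU, ?_⟩, ?_⟩
  · intro σ hσ τ hτ
    simp only [dif_pos hσ, dif_pos hτ, dif_pos (mul_mem hσ hτ)]
    rw [← Units.val_mul, ← map_mul]
    rfl
  · intro σ hσ
    simp only [dif_pos hσ]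
    rw [← Units.val_pow_eq_pow_val, h1, Units.val_one]
  · rintro _ ⟨x, hx, rfl⟩
    have h4 : H.subtype x ∈ H := x.2
    simp only [dif_pos h4]
    have h5 := h2 x hx
    have e : (⟨H.subtype x, h4⟩ : H) = x := rfl
    rw [e, h5, Units.val_one]
  · intro σ hσ
    simp only [dif_pos hσ]
    exact h3 ⟨σ, hσ⟩

end rep

/-! ### Number fields -/

instance instTopGroup : IsTopologicalGroup AbsGal :=
  inferInstanceAs (IsTopologicalGroup (QBar ≃ₐ[ℚ] QBar))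

instance instCompact : CompactSpace AbsGal :=
  inferInstanceAs (CompactSpace (QBar ≃ₐ[ℚ] QBar))

/-- the decomposition group -/
def DecS {ℓ : ℕ} [Fact ℓ.Prime] (ι : Place ℓ) : Subgroup AbsGal :=
  (DV.DecS ι : Subgroup DV.AbsGal)

lemma coe_DecS {ℓ : ℕ} [Fact ℓ.Prime] (ι : Place ℓ) : (DecS ι : Set AbsGal) = Dec ι := rfl

lemma outside_conj {K : Subgroup AbsGal} {S : PlaceSet} (hS : IsPlaceSet K S) (t : AbsGal)
    (ht : t ∈ outside S) (r : AbsGal) (hr : r ∈ K) : r * t * r⁻¹ ∈ outside S := by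
  obtain ⟨ℓ, hℓ, ι, h1, h2⟩ := ht
  refine ⟨ℓ, hℓ, ι.comp (show QBar ≃ₐ[ℚ] QBar from r⁻¹).toAlgHom, fun h3 => h1 ?_, ?_⟩
  · exact hS ℓ ι _ r⁻¹ (inv_mem hr) (fun x => rfl) h3
  · exact DV.Inr_conj (ι := ι) (σ := t) h2 r

/-- **The first family.** -/
theorem family_two {q : ℕ} (hq : q.Prime) (hq8 : q % 8 = 3 ∨ q % 8 = 5) (ι : Place 2) :
    NonSplit 2 (⊤ : Subgroup AbsGal) (outside (above {2, q})) (Dec ι) := by
  intro V hV hu
  by_contra hcon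
  push Not at hcon
  have hn : V.Normal := ⟨fun σ hσ r => hV.normal σ hσ r (Subgroup.mem_top r)⟩
  have hi : V.index = 2 := by rw [← hV.index, Subgroup.relIndex_top_right]
  exact (DV.noSplitQ hq hq8 ι) V hn hi hV.isOpen (fun σ hσ => hu σ (Subgroup.mem_top σ) hσ)
    (fun σ hσ => hcon σ (Subgroup.mem_top σ) hσ)

/-- **The second family.** -/
theorem family_quad {d : ℕ} (hd : (d.Prime ∧ d % 16 = 7) ∨
    ∃ p q : ℕ, p.Prime ∧ q.Prime ∧ p % 8 = 5 ∧ q % 8 = 3 ∧ d = p * q)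
    {s : QBar} (hs : s ^ 2 = -(d : QBar)) (H : Subgroup AbsGal)
    (hH : ∀ σ : AbsGal, σ ∈ H ↔ app σ s = s) (ι : Place 2) :
    NonSplit 2 H (outside (above {2})) (Dec ι) := by
  rw [← coe_DecS]
  exact nonSplit_of (DV.noSplit_quad hd hs ι H hH)

end Pool.Agent.V7H44.DVS
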