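import Pool.Agent.V7H44.DV.Conv

/-!
# The criterion is necessary
-/

set_option autoImplicit false

namespace Pool.Agent.V7H44.DVS

open IsLocalRing Matrix

variable {G : Type} [Group G] [TopologicalSpace G] {p : ℕ} [hpp : Fact p.Prime]

/-- the homomorphism to `ℤ/p` with kernel `V` -/
lemma exists_hom {H V : Subgroup G} (hV : OpenNormal V H p) :
    ∃ c : H →* Multiplicative (ZMod p), ∀ σ : H, c σ = 1 ↔ (σ : G) ∈ V := by
  have hn : (V.subgroupOf H).Normal := ⟨fun σ hσ r => hV.normal σ hσ r r.2⟩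
  have hc : Nat.card (H ⧸ V.subgroupOf H) = p := hV.index
  have : IsCyclic (H ⧸ V.subgroupOf H) := isCyclic_of_prime_card hc
  have e : H ⧸ V.subgroupOf H ≃* Multiplicative (ZMod p) :=
    mulEquivOfPrimeCardEq hc (by simp [Nat.card_eq_fintype_card, ZMod.card])
  refine ⟨e.toMonoidHom.comp (QuotientGroup.mk' (V.subgroupOf H)), fun σ => ?_⟩
  show e (QuotientGroup.mk' (V.subgroupOf H) σ) = 1 ↔ _
  rw [MulEquiv.map_eq_one_iff, QuotientGroup.mk'_apply, QuotientGroup.eq_one_iff]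
  rfl

/-- `ℤ/p` as a ring of coefficients. -/
lemma coeff_zmod : ∃ t : TopologicalSpace (ZMod p), @DiscreteTopology _ t ∧
    @Coefficients p (ZMod p) (ZMod p) _ _ t _ _ := by
  refine ⟨⊥, ⟨rfl⟩, ?_⟩
  let _ : TopologicalSpace (ZMod p) := ⊥
  have : DiscreteTopology (ZMod p) := ⟨rfl⟩
  have hb : maximalIdeal (ZMod p) = ⊥ := IsLocalRing.maximalIdeal_eq_bot
  refine @Coefficients.mk p (ZMod p) (ZMod p) _ _ _ _ _ inferInstance inferInstance ?_ ?_ ?_
  · rw [hb, is_bot_adic_iff]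
    infer_instance
  · exact Finite.of_surjective _ (IsLocalRing.residue_surjective (R := ZMod p))
  · rw [hb, ZMod.natCast_self]
    exact zero_mem _

/-- **The criterion is necessary.** -/
theorem necessary [IsTopologicalGroup G] {H : Subgroup G} {T D : Set G}
    (h : ∀ (A F : Type) [CommRing A] [IsLocalRing A] [TopologicalSpace A] [Field F]
      [Algebra A F], Coefficients p A F → ∀ ρ : G → Matrix (Fin 2) (Fin 2) A, IsRep H H T ρ →
        ∀ (m : ℕ), ∀ σ ∈ H, ∃ δ ∈ H, δ ∈ D ∧ ∀ i j, ρ σ i j - ρ δ i j ∈ maximalIdeal A ^ m) :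
    NonSplit p H T D := by
  classical
  intro V hV hT
  by_contra hcon
  push Not at hcon
  obtain ⟨c, hc⟩ := exists_hom hV
  obtain ⟨t, ht, hA⟩ := coeff_zmod (p := p)
  let _ := t
  have hb : maximalIdeal (ZMod p) = ⊥ := IsLocalRing.maximalIdeal_eq_bot
  let a : G → ZMod p := fun σ => if hσ : σ ∈ H then (c ⟨σ, hσ⟩).toAdd else 0
  let ρ : G → Matrix (Fin 2) (Fin 2) (ZMod p) := fun σ => !![1, a σ; 0, 1]
  have ha : ∀ σ (hσ : σ ∈ H), a σ = (c ⟨σ, hσ⟩).toAdd := fun σ hσ => dif_pos hσ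
  have haV : ∀ σ ∈ H, (a σ = 0 ↔ σ ∈ V) := by
    intro σ hσ
    rw [ha σ hσ, ← hc ⟨σ, hσ⟩]
    constructor
    · intro h
      exact Multiplicative.toAdd.injective h
    · intro h
      rw [h]; rfl
  have hmul : ∀ σ ∈ H, ∀ τ ∈ H, a (σ * τ) = a σ + a τ := by
    intro σ hσ τ hτ
    rw [ha σ hσ, ha τ hτ, ha _ (mul_mem hσ hτ), ← toAdd_mul, ← map_mul]
    rfl
  have h1 : a 1 = 0 := (haV 1 (one_mem H)).2 (one_mem V)
  have hρ : IsRep H H T ρ := by
    refine ⟨?_, ?_, ?_, ?_, ?_⟩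
    · show !![1, a 1; 0, 1] = 1
      rw [h1, Matrix.one_fin_two]
    · intro σ hσ τ hτ
      show !![1, a (σ * τ); 0, 1] = !![1, a σ; 0, 1] * !![1, a τ; 0, 1]
      rw [hmul σ hσ τ hτ, Matrix.mul_fin_two]
      simp [add_comm]
    · have hac : ContinuousOn a (H : Set G) := by
        intro σ hσ
        have ho : IsOpen ((fun τ => σ⁻¹ * τ) ⁻¹' (V : Set G)) :=
          hV.isOpen.preimage (continuous_const_mul σ⁻¹)
        have h2 : ∀ᶠ τ in nhds σ, a τ = a σ := by
          filter_upwards [ho.mem_nhds (show σ⁻¹ * σ ∈ V by rw [inv_mul_cancel]; exact one_mem V)]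
            with τ hτ
          have h3 : σ⁻¹ * τ ∈ V := hτ
          have h4 : a τ = a σ + a (σ⁻¹ * τ) := by
            rw [← hmul σ hσ _ (hV.le h3), mul_inv_cancel_left]
          rw [h4, (haV _ (hV.le h3)).2 h3, add_zero]
        have h3 : ContinuousAt a σ :=
          (continuousAt_const : ContinuousAt (fun _ : G => a σ) σ).congr
            (h2.mono fun τ hτ => hτ.symm)
        exact h3.continuousWithinAt
      intro i j
      fin_cases i <;> fin_cases j
      · exact continuousOn_const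
      · exact hac
      · exact continuousOn_const
      · exact continuousOn_const
    · intro σ hσ
      refine ⟨2, fun i j => ?_⟩
      have : (ρ σ - 1) ^ 2 = 0 := by
        show (!![1, a σ; 0, 1] - 1) ^ 2 = 0
        rw [Matrix.one_fin_two, pow_two]
        ext i j
        fin_cases i <;> fin_cases j <;> simp [Matrix.mul_apply]
      rw [this]
      exact zero_mem _
    · intro σ hσ hσT
      show !![1, a σ; 0, 1] = 1
      rw [(haV σ hσ).2 (hT σ hσ hσT), Matrix.one_fin_two]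
  have hVH : ∀ σ ∈ H, σ ∈ V := by
    intro σ hσ
    obtain ⟨δ, h2, h3, h4⟩ := h (ZMod p) (ZMod p) hA ρ hρ 1 σ hσ
    have h5 := h4 0 1
    rw [pow_one, hb, Ideal.mem_bot, sub_eq_zero] at h5
    have h6 : a σ = a δ := h5
    rw [← haV σ hσ, h6, haV δ h2]
    exact hcon δ h2 h3
  have h7 : V.relIndex H = 1 := Subgroup.relIndex_eq_one.2 hVH
  rw [hV.index] at h7
  exact hpp.out.one_lt.ne' h7

end Pool.Agent.V7H44.DVS
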