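import Pool.Agent.V7H44.DV.Rep

/-!
# Number fields: the criterion for the decomposition group of one place
-/

set_option autoImplicit false
set_option linter.unusedSectionVars false

namespace Pool.Agent.V7H44.DV

open Pool.Agent.Z384
open IsLocalRing Matrix

/-- An algebraic closure of `ℚ`. -/
abbrev QBar : Type := AlgebraicClosure ℚ

/-- The absolute Galois group of `ℚ`, with the Krull topology. The absolute Galois groups of the
number fields `K ⊂ ℚ̄` are its open subgroups. -/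
abbrev AbsGal : Type := QBar ≃ₐ[ℚ] QBar

/-- The decomposition group of the place of `ℚ̄` above `ℓ` given by the embedding `ι`. -/
def Dec {ℓ : ℕ} [Fact ℓ.Prime] (ι : QBar →ₐ[ℚ] PadicAlgCl ℓ) : Set AbsGal :=
  {σ | ∃ τ : PadicAlgCl ℓ ≃ₐ[ℚ_[ℓ]] PadicAlgCl ℓ, ∀ x, τ (ι x) = ι (σ x)}

/-- Its inertia group: the automorphisms which are trivial on the residue field. -/
def Inr {ℓ : ℕ} [Fact ℓ.Prime] (ι : QBar →ₐ[ℚ] PadicAlgCl ℓ) : Set AbsGal :=
  {σ | ∃ τ : PadicAlgCl ℓ ≃ₐ[ℚ_[ℓ]] PadicAlgCl ℓ, (∀ x, τ (ι x) = ι (σ x)) ∧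
    ∀ z : PadicAlgCl ℓ, ‖z‖ ≤ 1 → ‖τ z - z‖ < 1}

/-- The sets of finite places of `ℚ̄`. -/
abbrev PlaceSet : Type := ∀ (ℓ : ℕ) [Fact ℓ.Prime], Set (QBar →ₐ[ℚ] PadicAlgCl ℓ)

/-- `S` is a set of places of the field `K` with absolute Galois group `H`: it contains with a place
its conjugates over `K`. -/
def IsPlaceSet (H : Subgroup AbsGal) (S : PlaceSet) : Prop :=
  ∀ (ℓ : ℕ) [Fact ℓ.Prime] (ι : QBar →ₐ[ℚ] PadicAlgCl ℓ), ∀ r ∈ H,
    ι.comp r.toAlgHom ∈ S ℓ → ι ∈ S ℓ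

/-- The set `U` of elements of the absolute Galois group `H` contains the inertia groups of all the
finite places which are not in `S`. -/
def UnramifiedOutside (S : PlaceSet) {H : Subgroup AbsGal} (U : Set H) : Prop :=
  ∀ (ℓ : ℕ) [Fact ℓ.Prime] (ι : QBar →ₐ[ℚ] PadicAlgCl ℓ), ι ∉ S ℓ →
    ∀ σ : H, (σ : AbsGal) ∈ Inr ι → σ ∈ U

/-- The place `ι` does not split completely in any cyclic extension of degree `p` of the number
field with absolute Galois group `H` which is unramified at the finite places not in `S`: no open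
normal subgroup of index `p` of `H` which contains the inertia groups of these places contains the
decomposition group of `ι`. -/
def NonSplit (p : ℕ) {ℓ : ℕ} [Fact ℓ.Prime] (H : Subgroup AbsGal) (S : PlaceSet)
    (ι : QBar →ₐ[ℚ] PadicAlgCl ℓ) : Prop :=
  ∀ V : Subgroup H, V.Normal → V.index = p → IsOpen (V : Set H) → UnramifiedOutside S (V : Set H) →
    ∃ δ : H, (δ : AbsGal) ∈ Dec ι ∧ δ ∉ V

/-- the decomposition group as a subgroup -/
def DecS {ℓ : ℕ} [Fact ℓ.Prime] (ι : QBar →ₐ[ℚ] PadicAlgCl ℓ) : Subgroup AbsGal where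
  carrier := Dec ι
  mul_mem' := by
    rintro σ σ' ⟨τ, h⟩ ⟨τ', h'⟩
    refine ⟨τ * τ', fun x => ?_⟩
    rw [AlgEquiv.mul_apply, AlgEquiv.mul_apply, h', h]
  one_mem' := ⟨1, fun _ => rfl⟩
  inv_mem' := by
    rintro σ ⟨τ, h⟩
    refine ⟨τ⁻¹, fun x => ?_⟩
    have h5 := h (σ⁻¹ x)
    rw [← AlgEquiv.mul_apply σ σ⁻¹, mul_inv_cancel, AlgEquiv.one_apply] at h5
    rw [← h5, ← AlgEquiv.mul_apply τ⁻¹ τ, inv_mul_cancel, AlgEquiv.one_apply]

/-- the inertia elements outside `S` -/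
def ram (S : PlaceSet) : Set AbsGal :=
  {σ | ∃ (ℓ : ℕ) (_ : Fact ℓ.Prime) (ι : QBar →ₐ[ℚ] PadicAlgCl ℓ), ι ∉ S ℓ ∧ σ ∈ Inr ι}

lemma unr_iff {S : PlaceSet} {H : Subgroup AbsGal} {U : Set H} :
    UnramifiedOutside S U ↔ (Subtype.val ⁻¹' ram S : Set H) ⊆ U := by
  constructor
  · rintro h σ ⟨ℓ, hℓ, ι, h1, h2⟩
    exact h ℓ ι h1 σ h2
  · intro h ℓ hℓ ι hι σ hσ
    exact h ⟨ℓ, hℓ, ι, hι, hσ⟩

lemma nonSplit_iff {p : ℕ} {ℓ : ℕ} [Fact ℓ.Prime] {H : Subgroup AbsGal} {S : PlaceSet}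
    {ι : QBar →ₐ[ℚ] PadicAlgCl ℓ} :
    NonSplit p H S ι ↔ NoSplit p (Subtype.val ⁻¹' ram S : Set H)
      (((DecS ι).subgroupOf H : Subgroup H) : Set H) := by
  constructor
  · intro h V hVn hVi hVo hT hD
    obtain ⟨δ, h1, h2⟩ := h V hVn hVi hVo (unr_iff.2 hT)
    exact h2 (hD h1)
  · intro h V hVn hVi hVo hu
    have h1 := h V hVn hVi hVo (unr_iff.1 hu)
    rw [Set.not_subset] at h1
    obtain ⟨δ, h2, h3⟩ := h1
    exact ⟨δ, h2, h3⟩

lemma Inr_conj {ℓ : ℕ} [Fact ℓ.Prime] {ι : QBar →ₐ[ℚ] PadicAlgCl ℓ} {σ : AbsGal}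
    (hσ : σ ∈ Inr ι) (r : AbsGal) : r * σ * r⁻¹ ∈ Inr (ι.comp (r⁻¹ : AbsGal).toAlgHom) := by
  obtain ⟨τ, h1, h2⟩ := hσ
  refine ⟨τ, fun x => ?_, h2⟩
  show τ (ι (r⁻¹ x)) = ι (r⁻¹ ((r * σ * r⁻¹) x))
  rw [h1, ← AlgEquiv.mul_apply, ← AlgEquiv.mul_apply]
  congr 2
  group

lemma ram_conj {S : PlaceSet} {H : Subgroup AbsGal} (hS : IsPlaceSet H S) {σ : AbsGal}
    (hσ : σ ∈ ram S) {r : AbsGal} (hr : r ∈ H) : r * σ * r⁻¹ ∈ ram S := by
  obtain ⟨ℓ, hℓ, ι, h1, h2⟩ := hσ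
  exact ⟨ℓ, hℓ, ι.comp (r⁻¹ : AbsGal).toAlgHom, fun h => h1 (hS ℓ ι r⁻¹ (inv_mem hr) h),
    Inr_conj h2 r⟩

lemma NoSplit.equiv {p : ℕ} {G G' : Type*} [Group G] [TopologicalSpace G] [Group G']
    [TopologicalSpace G'] (e : G ≃* G') (he : Continuous e) {T D : Set G} (h : NoSplit p T D) :
    NoSplit p (e.symm ⁻¹' T) (e.symm ⁻¹' D) := by
  intro V hVn hVi hVo hT hD
  refine h (V.comap e.toMonoidHom) (hVn.comap _) ?_ (hVo.preimage he) (fun t ht => ?_)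
    (fun t ht => ?_)
  · rw [Subgroup.index_comap_of_surjective V e.surjective, hVi]
  · refine hT ?_
    show e.symm (e t) ∈ T
    rwa [e.symm_apply_apply]
  · refine hD ?_
    show e.symm (e t) ∈ D
    rwa [e.symm_apply_apply]

/-- **Inheritance** of the criterion in the `p`-extensions unramified outside `S`. -/
theorem nonSplit_inherit {p : ℕ} [hp : Fact p.Prime] {ℓ : ℕ} [Fact ℓ.Prime]
    {H L N : Subgroup AbsGal} {S : PlaceSet} (hS : IsPlaceSet H S)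
    {ι : QBar →ₐ[ℚ] PadicAlgCl ℓ} (h : NonSplit p H S ι) (hLH : L ≤ H) (hNL : N ≤ L)
    (hNn : (N.subgroupOf H).Normal) (hNi : ∃ a : ℕ, (N.subgroupOf H).index = p ^ a)
    (hNo : IsOpen ((N.subgroupOf H : Subgroup H) : Set H))
    (hNu : UnramifiedOutside S ((N.subgroupOf H : Subgroup H) : Set H)) : NonSplit p L S ι := by
  have h1 := inherit (G := H) ((DecS ι).subgroupOf H) (T := (Subtype.val ⁻¹' ram S : Set H))
    (fun t ht r => ram_conj hS ht r.2) (nonSplit_iff.1 h) (H := L.subgroupOf H)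
    (N := N.subgroupOf H) (fun x hx => hNL hx) hNn hNi hNo (unr_iff.1 hNu)
  have h2 := NoSplit.equiv (Subgroup.subgroupOfEquivOfLe hLH) (by
    refine Continuous.subtype_mk ?_ _
    exact continuous_subtype_val.comp continuous_subtype_val) h1
  rw [nonSplit_iff]
  exact h2

/-- All the places above the prime numbers in `P`. -/
def above (P : Set ℕ) : PlaceSet := fun ℓ _ => {_ι | ℓ ∈ P}

lemma above_isPlaceSet (H : Subgroup AbsGal) (P : Set ℕ) : IsPlaceSet H (above P) :=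
  fun _ _ _ _ _ h => h

/-- The criterion over `ℚ` for `p = 2` and `S = {2, q}`, `q = ± 3` modulo `8`. -/
theorem noSplitQ {q : ℕ} (hq : q.Prime) (hq8 : q % 8 = 3 ∨ q % 8 = 5)
    (ι : QBar →ₐ[ℚ] PadicAlgCl 2) :
    NoSplit 2 (ram (above {2, q})) ((DecS ι : Subgroup AbsGal) : Set AbsGal) := by
  intro V hVn hVi hVo hT hD
  have hC : ∀ e : ℤ, Squarefree e.natAbs → e % 8 = 1 → e ≠ 1 → ∀ t : QBar, t ^ 2 = e →
      ∃ σ ∈ V, σ t ≠ t := fun e he he8 hne t ht =>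
    Pool.Agent.N817.condU hq hq8 (U := V) (fun p hp ι' hp2 hpq σ hσ => hT
      ⟨p, hp, ι', by
        show ¬ (p ∈ ({2, q} : Set ℕ))
        simp [hp2, hpq], hσ⟩) e he he8 hne t ht
  have htop : V = ⊤ := by
    refine eq_top_iff.2 fun g _ => ?_
    obtain ⟨δ, hδ, hδg⟩ := Pool.Agent.N817.surjQ hVn (a := 1) (by rw [hVi, pow_one]) hVo hC ι g
    have h1 : δ ∈ V := hD hδ
    have e : g = δ * (δ⁻¹ * g) := by group
    rw [e]
    exact mul_mem h1 hδg
  rw [htop, Subgroup.index_top] at hVi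
  exact absurd hVi (by norm_num)

/-- **The first family**: the fields in the `2`-extensions of `ℚ` unramified outside `{2, q, ∞}`. -/
theorem nonSplit_two {q : ℕ} (hq : q.Prime) (hq8 : q % 8 = 3 ∨ q % 8 = 5)
    {L N : Subgroup AbsGal} (hNL : N ≤ L) (hNn : N.Normal) (hNi : ∃ a : ℕ, N.index = 2 ^ a)
    (hNo : IsOpen (N : Set AbsGal)) (hNu : ram (above {2, q}) ⊆ N)
    (ι : QBar →ₐ[ℚ] PadicAlgCl 2) : NonSplit 2 L (above {2, q}) ι := by
  have : Fact (Nat.Prime 2) := ⟨Nat.prime_two⟩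
  have h1 := inherit (DecS ι) (T := ram (above {2, q}))
    (fun t ht r => ram_conj (above_isPlaceSet ⊤ _) ht (Subgroup.mem_top r))
    (noSplitQ hq hq8 ι) hNL hNn hNi hNo hNu
  rw [nonSplit_iff]
  exact h1

section cons

variable {A : Type*} [CommRing A] [IsLocalRing A] [IsNoetherianRing A] [TopologicalSpace A]
  {n n' : ℕ}
variable {F : Type*} [Field F] [Algebra A F] [IsFractionRing A F]

/-- The restriction to the subgroup `H' ≤ H` of the representation `ρ` of `H` is residually unipotent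
and unramified at the finite places not in `S`. -/
structure Unipotent {A : Type*} [CommRing A] [IsLocalRing A] (S : PlaceSet)
    {H : Subgroup AbsGal} (H' : Subgroup AbsGal) {n : ℕ} (ρ : H →* GL (Fin n) A) : Prop where
  unipotent : ∀ σ : H, (σ : AbsGal) ∈ H' → ∃ m : ℕ, ∀ i j,
    (((ρ σ : Matrix (Fin n) (Fin n) A) - 1) ^ m) i j ∈ maximalIdeal A
  unramified : ∀ (ℓ : ℕ) [Fact ℓ.Prime] (ι : QBar →ₐ[ℚ] PadicAlgCl ℓ), ι ∉ S ℓ →
    ∀ σ : H, (σ : AbsGal) ∈ H' → (σ : AbsGal) ∈ Inr ι → ρ σ = 1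

lemma dense_field {p : ℕ} [hpp : Fact p.Prime] (hp : (p : A) ∈ maximalIdeal A)
    (hA : IsAdic (maximalIdeal A)) (hfin : Finite (ResidueField A))
    {ℓ : ℕ} [Fact ℓ.Prime] {H H' : Subgroup AbsGal} (hH : H' ≤ H) {S : PlaceSet}
    {ι : QBar →ₐ[ℚ] PadicAlgCl ℓ} (h : NonSplit p H' S ι)
    {ρ : H →* GL (Fin n) A} {ρ' : H →* GL (Fin n') A}
    (hρ : ∀ i j, Continuous fun σ => (ρ σ : Matrix (Fin n) (Fin n) A) i j)
    (hρ' : ∀ i j, Continuous fun σ => (ρ' σ : Matrix (Fin n') (Fin n') A) i j)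
    (hu : Unipotent S H' ρ) (hu' : Unipotent S H' ρ') (m : ℕ) (g : H) (hg : (g : AbsGal) ∈ H') :
    ∃ δ : H, (δ : AbsGal) ∈ H' ∧ (δ : AbsGal) ∈ Dec ι ∧ δ⁻¹ * g ∈ cong ρ m ∧ δ⁻¹ * g ∈ cong ρ' m := by
  have hcont : Continuous (Subgroup.inclusion hH) :=
    Continuous.subtype_mk continuous_subtype_val _
  obtain ⟨δ, h1, h2, h3⟩ := dense_of_noSplit₂ hp hA hfin
    (ρ := ρ.comp (Subgroup.inclusion hH)) (ρ' := ρ'.comp (Subgroup.inclusion hH))
    (fun i j => (hρ i j).comp hcont) (fun i j => (hρ' i j).comp hcont)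
    (fun σ => hu.unipotent (Subgroup.inclusion hH σ) σ.2)
    (fun σ => hu'.unipotent (Subgroup.inclusion hH σ) σ.2)
    (nonSplit_iff.1 h)
    (fun σ hσ => by
      obtain ⟨l, hl, ι', h1, h2⟩ := hσ
      exact hu.unramified l ι' h1 (Subgroup.inclusion hH σ) σ.2 h2)
    (fun σ hσ => by
      obtain ⟨l, hl, ι', h1, h2⟩ := hσ
      exact hu'.unramified l ι' h1 (Subgroup.inclusion hH σ) σ.2 h2) m ⟨g, hg⟩
  exact ⟨Subgroup.inclusion hH δ, δ.2, h1, h2, h3⟩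

/-- equality of traces on a dense set -/
theorem trace_of_dense {G : Type*} [Group G] {ρ : G →* GL (Fin n) A} {ρ' : G →* GL (Fin n') A}
    {g : G} (h : ∀ m : ℕ, ∃ δ : G, (δ⁻¹ * g ∈ cong ρ m ∧ δ⁻¹ * g ∈ cong ρ' m) ∧
      (ρ δ : Matrix (Fin n) (Fin n) A).trace = (ρ' δ : Matrix (Fin n') (Fin n') A).trace) :
    (ρ g : Matrix (Fin n) (Fin n) A).trace = (ρ' g : Matrix (Fin n') (Fin n') A).trace := by
  rw [← sub_eq_zero]
  have hbot : (⨅ k : ℕ, maximalIdeal A ^ k) = ⊥ :=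
    Ideal.iInf_pow_eq_bot_of_isLocalRing (maximalIdeal A) (Ideal.IsPrime.ne_top inferInstance)
  have hmem : (ρ g : Matrix (Fin n) (Fin n) A).trace - (ρ' g : Matrix (Fin n') (Fin n') A).trace ∈
      (⨅ k : ℕ, maximalIdeal A ^ k) := by
    rw [Ideal.mem_iInf]
    intro k
    obtain ⟨δ, ⟨hu, hu'⟩, ht⟩ := h k
    have key : ∀ {N : ℕ} (r : G →* GL (Fin N) A), δ⁻¹ * g ∈ cong r k →
        (r g : Matrix (Fin N) (Fin N) A).trace - (r δ : Matrix (Fin N) (Fin N) A).trace ∈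
          maximalIdeal A ^ k := by
      intro N r hr
      have e1 : (r g : Matrix (Fin N) (Fin N) A) - (r δ : Matrix (Fin N) (Fin N) A) =
          (r δ : Matrix (Fin N) (Fin N) A) * ((r (δ⁻¹ * g) : Matrix (Fin N) (Fin N) A) - 1) := by
        rw [Matrix.mul_sub, Matrix.mul_one, ← Units.val_mul, ← map_mul, mul_inv_cancel_left]
      rw [← Matrix.trace_sub, e1, Matrix.trace]
      exact Ideal.sum_mem _ fun i _ => InI.mulL' (mem_cong.1 hr) _ i i
    have e : (ρ g : Matrix (Fin n) (Fin n) A).trace - (ρ' g : Matrix (Fin n') (Fin n') A).trace =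
        ((ρ g : Matrix (Fin n) (Fin n) A).trace - (ρ δ : Matrix (Fin n) (Fin n) A).trace) -
        ((ρ' g : Matrix (Fin n') (Fin n') A).trace - (ρ' δ : Matrix (Fin n') (Fin n') A).trace) := by
      rw [ht]; ring
    rw [e]
    exact sub_mem (key ρ hu) (key ρ' hu')
  rw [hbot] at hmem
  exact hmem

end cons

end Pool.Agent.V7H44.DV
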