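import Pool.Agent.V7H44.DV.Fld

/-!
# The criterion over the imaginary quadratic fields `ℚ(√-d)`
-/

set_option autoImplicit false
set_option linter.unusedSectionVars false

namespace Pool.Agent.V7H44.DV

open Pool.Agent.Z384
open Pool.Agent.Y715.Red Pool.Agent.Y715.Nr Pool.Agent.W237.RK
open Pool.Agent.Y715.Gi (QB KK GK i₀_mem gk_fix)
open Pool.Agent.Y715.Df (Cmp exists_cmp gh)
open scoped Topology

/-- The absolute Galois group of `ℚ(s)`. -/
noncomputable def galQ (s : QBar) : Subgroup AbsGal := (IntermediateField.adjoin ℚ {s}).fixingSubgroup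

/-- the identification with the group of the automorphisms over `ℚ(s)` -/
noncomputable def eqv (s : QBar) : galQ s ≃* GK s :=
  IntermediateField.fixingSubgroupEquiv (IntermediateField.adjoin ℚ {s})

lemma eqv_apply (s : QBar) (σ : galQ s) (x : QBar) : eqv s σ x = (σ : AbsGal) x := rfl

lemma eqv_symm_apply (s : QBar) (σ : GK s) (x : QBar) : ((eqv s).symm σ : AbsGal) x = σ x := rfl

lemma open_map (s : QBar) {V : Subgroup (galQ s)} (hV : IsOpen (V : Set (galQ s))) :
    IsOpen ((V.map (eqv s).toMonoidHom : Subgroup (GK s)) : Set (GK s)) := by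
  obtain ⟨O, hO, hOV⟩ := isOpen_induced_iff.1 hV
  have h1 : O ∈ 𝓝 (1 : AbsGal) := by
    refine hO.mem_nhds ?_
    have : (1 : galQ s) ∈ Subtype.val ⁻¹' O := by
      rw [hOV]
      exact one_mem V
    exact this
  obtain ⟨E, hE, hEO⟩ := (krullTopology_mem_nhds_one_iff ℚ QBar O).1 h1
  refine Subgroup.isOpen_of_mem_nhds _ (g := 1) ?_
  rw [krullTopology_mem_nhds_one_iff]
  have hfE : FiniteDimensional ℚ E := hE
  have hint : ∀ x : QBar, IsIntegral (KK s) x := fun x => by
    have : Algebra.IsAlgebraic (KK s) QBar := inferInstance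
    exact (Algebra.IsAlgebraic.isAlgebraic x).isIntegral
  let b := Module.finBasis ℚ E
  refine ⟨IntermediateField.adjoin (KK s) (Set.range fun i => ((b i : E) : QBar)), ?_, ?_⟩
  · exact IntermediateField.finiteDimensional_adjoin fun x _ => hint x
  · intro σ hσ
    refine ⟨(eqv s).symm σ, ?_, (eqv s).apply_symm_apply σ⟩
    have h2 : ((eqv s).symm σ : AbsGal) ∈ O := by
      refine hEO ?_
      refine (IntermediateField.mem_fixingSubgroup_iff E _).2 fun x hx => ?_
      rw [eqv_symm_apply]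
      have h3 : ∀ i, σ ((b i : E) : QBar) = ((b i : E) : QBar) := fun i =>
        (IntermediateField.mem_fixingSubgroup_iff _ _).1 hσ _
          (IntermediateField.subset_adjoin _ _ ⟨i, rfl⟩)
      obtain ⟨c, h6⟩ : ∃ c : Fin (Module.finrank ℚ E) → ℚ, x = ∑ i, (c i : QBar) * ((b i : E) : QBar) := by
        refine ⟨fun i => b.repr ⟨x, hx⟩ i, ?_⟩
        have h4 := congrArg (fun y : E => (y : QBar)) (b.sum_repr (⟨x, hx⟩ : E))
        have h5 : ((∑ i, (b.repr ⟨x, hx⟩ i) • b i : E) : QBar) = x := h4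
        refine h5.symm.trans ?_
        rw [IntermediateField.coe_sum]
        refine Finset.sum_congr rfl fun i _ => ?_
        rw [IntermediateField.coe_smul, Rat.smul_def]
      rw [h6, map_sum]
      refine Finset.sum_congr rfl fun i _ => ?_
      rw [map_mul, map_ratCast, h3]
    have h7 : (eqv s).symm σ ∈ (V : Set (galQ s)) := by
      rw [← hOV]
      exact h2
    exact h7

/-- **The second family**: `K = ℚ(√-d)`, `S = {2}` and ONE of the two places above `2`. -/
theorem nonSplit_quad {d : ℕ} (hd : (d.Prime ∧ d % 16 = 7) ∨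
    ∃ p q : ℕ, p.Prime ∧ q.Prime ∧ p % 8 = 5 ∧ q % 8 = 3 ∧ d = p * q)
    {s : QBar} (hs : s ^ 2 = -(d : QBar)) (ι : QBar →ₐ[ℚ] PadicAlgCl 2) :
    NonSplit 2 (galQ s) (above {2}) ι := by
  intro V hVn hVi hVo hu
  by_contra hcon
  push Not at hcon
  have hsur := (eqv s).surjective
  have hmn : (V.map (eqv s).toMonoidHom).Normal := hVn.map _ hsur
  have hmi : (V.map (eqv s).toMonoidHom).index = 2 ^ 1 := by
    rw [pow_one, ← hVi]
    exact Subgroup.index_map_equiv V (eqv s)
  have htop : ∀ g : GK s, g ∈ V.map (eqv s).toMonoidHom := by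
    intro g
    obtain ⟨δ, hδ, hδg⟩ := surj hs (d := d) hd hmn hmi (open_map s hVo)
      (fun p _ ι' hp σ hσ => by
        obtain ⟨τ, h1, h2⟩ := hσ
        refine ⟨(eqv s).symm σ, ?_, (eqv s).apply_symm_apply σ⟩
        refine hu p ι' ?_ _ ⟨τ, fun x => h1 x, h2⟩
        show ¬ (p ∈ ({2} : Set ℕ))
        simpa using hp) ι g
    have h1 : δ ∈ V.map (eqv s).toMonoidHom := by
      obtain ⟨τ, h1⟩ := hδ
      exact ⟨(eqv s).symm δ, hcon _ ⟨τ, fun x => h1 x⟩, (eqv s).apply_symm_apply δ⟩
    have e : g = δ * (δ⁻¹ * g) := by group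
    rw [e]
    exact mul_mem h1 hδg
  have h2 : V.map (eqv s).toMonoidHom = ⊤ := eq_top_iff.2 fun g _ => htop g
  rw [h2, Subgroup.index_top] at hmi
  exact absurd hmi (by norm_num)

/-- the same, for a group given as the stabilizer of `s` -/
theorem noSplit_quad {d : ℕ} (hd : (d.Prime ∧ d % 16 = 7) ∨
    ∃ p q : ℕ, p.Prime ∧ q.Prime ∧ p % 8 = 5 ∧ q % 8 = 3 ∧ d = p * q)
    {s : QBar} (hs : s ^ 2 = -(d : QBar)) (ι : QBar →ₐ[ℚ] PadicAlgCl 2) (H : Subgroup AbsGal)
    (hH : ∀ σ : AbsGal, σ ∈ H ↔ σ s = s) :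
    NoSplit 2 (Subtype.val ⁻¹' ram (above {2}) : Set H)
      (((DecS ι).subgroupOf H : Subgroup H) : Set H) := by
  have h1 : H = galQ s := by
    ext σ
    rw [hH]
    constructor
    · intro h
      refine (IntermediateField.mem_fixingSubgroup_iff _ _).2 fun x hx => ?_
      have h2 : IntermediateField.adjoin ℚ {s} ≤ IntermediateField.fixedField (Subgroup.zpowers σ) := by
        rw [IntermediateField.adjoin_le_iff]
        rintro y rfl
        rw [SetLike.mem_coe, IntermediateField.mem_fixedField_iff]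
        intro f hf
        obtain ⟨k, rfl⟩ := Subgroup.mem_zpowers_iff.1 hf
        have h3 : σ ∈ MulAction.stabilizer AbsGal y := h
        exact zpow_mem h3 k
      exact (IntermediateField.mem_fixedField_iff _ _).1 (h2 hx) σ (Subgroup.mem_zpowers σ)
    · intro h
      exact (IntermediateField.mem_fixingSubgroup_iff _ _).1 h s
        (IntermediateField.mem_adjoin_simple_self ℚ s)
  subst h1
  exact nonSplit_iff.1 (nonSplit_quad hd hs ι)

end Pool.Agent.V7H44.DV
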