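import Pool.Agent.N817.DensTwo
import Pool.Agent.V7H44.DV.Cong

/-!
# Consequences of density: stable lines and intertwining maps
-/

set_option autoImplicit false
set_option linter.unusedSectionVars false

namespace Pool.Agent.V7H44.DV

open Pool.Agent.Z384
open IsLocalRing Matrix

section abs

variable {G : Type*} [Group G]

/-- a subgroup which is closed under limits and has finitely many cosets in a dense set has finite
index -/
theorem fin_of_lim {V : ℕ → Subgroup G} (hV : ∀ m m' : ℕ, m ≤ m' → V m' ≤ V m) {C : Subgroup G}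
    (hC : ∀ x, (∀ m, ∃ δ ∈ C, δ⁻¹ * x ∈ V m) → x ∈ C) {D : Set G}
    (happ : ∀ (m : ℕ) (g : G), ∃ δ ∈ D, δ⁻¹ * g ∈ V m)
    {R : Set G} (hRf : R.Finite) (hR : ∀ δ ∈ D, ∃ r ∈ R, r⁻¹ * δ ∈ C) : C.FiniteIndex := by
  have : Finite R := hRf
  have hsur : ∀ g : G, ∃ r : R, (r : G)⁻¹ * g ∈ C := by
    intro g
    choose δ hδ hu using fun m => happ m g
    choose r hr hr' using fun m => hR (δ m) (hδ m)
    obtain ⟨y, hy⟩ := Finite.exists_infinite_fiber (fun m : ℕ => (⟨r m, hr m⟩ : R))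
    have hy' : ((fun m : ℕ => (⟨r m, hr m⟩ : R)) ⁻¹' {y}).Infinite := Set.infinite_coe_iff.1 hy
    refine ⟨y, hC _ fun m => ?_⟩
    obtain ⟨m', hm', hmm⟩ := hy'.exists_gt m
    have hym : r m' = y := congrArg Subtype.val hm'
    refine ⟨(y : G)⁻¹ * δ m', ?_, ?_⟩
    · rw [← hym]
      exact hr' m'
    · have h1 : ((y : G)⁻¹ * δ m')⁻¹ * ((y : G)⁻¹ * g) = (δ m')⁻¹ * g := by group
      rw [h1]
      exact hV m m' hmm.le (hu m')
  have hfin : Finite (G ⧸ C) := by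
    refine Finite.of_surjective (fun r : R => (QuotientGroup.mk (r : G) : G ⧸ C)) ?_
    intro x
    obtain ⟨g, rfl⟩ := QuotientGroup.mk_surjective x
    obtain ⟨r, hr⟩ := hsur g
    exact ⟨r, QuotientGroup.eq.2 hr⟩
  exact Subgroup.finiteIndex_of_finite_quotient

lemma cosets_sub {H C : Subgroup G} {D : Set H} {R : Set G} (hRf : R.Finite)
    (hR : ∀ δ ∈ D, ∃ r ∈ R, r⁻¹ * (δ : G) ∈ C) :
    ∃ R' : Set H, R'.Finite ∧ ∀ δ ∈ D, ∃ r ∈ R', r⁻¹ * δ ∈ C.subgroupOf H := by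
  classical
  have : Finite R := hRf
  let f : R → H := fun r => if h : ∃ δ : H, δ ∈ D ∧ (r : G)⁻¹ * (δ : G) ∈ C then h.choose else 1
  refine ⟨Set.range f, Set.finite_range f, fun δ hδ => ?_⟩
  obtain ⟨r, hr, hrδ⟩ := hR δ hδ
  have h : ∃ δ : H, δ ∈ D ∧ ((⟨r, hr⟩ : R) : G)⁻¹ * (δ : G) ∈ C := ⟨δ, hδ, hrδ⟩
  refine ⟨f ⟨r, hr⟩, ⟨_, rfl⟩, ?_⟩
  have h2 : f ⟨r, hr⟩ = h.choose := dif_pos h
  have h3 := h.choose_spec.2
  rw [h2, Subgroup.mem_subgroupOf]
  have e : ((h.choose⁻¹ * δ : H) : G) = (r⁻¹ * (h.choose : G))⁻¹ * (r⁻¹ * (δ : G)) := by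
    push_cast
    group
  rw [e]
  exact mul_mem (inv_mem h3) hrδ

/-- the same with density in a subgroup of finite index only -/
theorem fin_of_lim_sub {V : ℕ → Subgroup G} (hV : ∀ m m' : ℕ, m ≤ m' → V m' ≤ V m) {C : Subgroup G}
    (hC : ∀ x, (∀ m, ∃ δ ∈ C, δ⁻¹ * x ∈ V m) → x ∈ C) {H : Subgroup G} (hH : H.FiniteIndex)
    {D : Set H} (happ : ∀ (m : ℕ) (g : H), ∃ δ ∈ D, δ⁻¹ * g ∈ (V m).subgroupOf H)
    {R : Set G} (hRf : R.Finite) (hR : ∀ δ ∈ D, ∃ r ∈ R, r⁻¹ * (δ : G) ∈ C) : C.FiniteIndex := by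
  obtain ⟨R', hRf', hR'⟩ := cosets_sub hRf hR
  have h1 : (C.subgroupOf H).FiniteIndex := by
    refine fin_of_lim (V := fun m => (V m).subgroupOf H) (fun m m' hm x hx => hV m m' hm hx)
      (fun x hx => ?_) happ hRf' hR'
    refine hC (x : G) fun m => ?_
    obtain ⟨δ, hδ, hu⟩ := hx m
    exact ⟨(δ : G), hδ, hu⟩
  have h2 : (C ⊓ H).FiniteIndex := ⟨by
    have := Subgroup.relIndex_mul_index (H := C ⊓ H) (K := H) inf_le_right
    rw [← this, Subgroup.inf_relIndex_right]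
    exact mul_ne_zero h1.index_ne_zero hH.index_ne_zero⟩
  exact Subgroup.finiteIndex_of_le (inf_le_left : C ⊓ H ≤ C)

end abs

section rep

variable {A : Type*} [CommRing A] [IsLocalRing A] [IsNoetherianRing A] {n n' : ℕ}
variable {G : Type*} [Group G]
variable {F : Type*} [Field F] [Algebra A F] [IsFractionRing A F]

/-- the matrix of `ρ σ` over `F` -/
def mp (F : Type*) [Field F] [Algebra A F] (ρ : G →* GL (Fin n) A) (σ : G) :
    Matrix (Fin n) (Fin n) F := (ρ σ : Matrix (Fin n) (Fin n) A).map (algebraMap A F)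

lemma mp_one (ρ : G →* GL (Fin n) A) : mp F ρ 1 = 1 := by
  rw [mp, map_one, Units.val_one, Matrix.map_one _ (map_zero _) (map_one _)]

lemma mp_mul (ρ : G →* GL (Fin n) A) (σ τ : G) : mp F ρ (σ * τ) = mp F ρ σ * mp F ρ τ := by
  rw [mp, map_mul, Units.val_mul, Matrix.map_mul]
  rfl

lemma mp_inv_mul (ρ : G →* GL (Fin n) A) (σ : G) : mp F ρ σ⁻¹ * mp F ρ σ = 1 := by
  rw [← mp_mul, inv_mul_cancel, mp_one]

lemma mp_mul_inv (ρ : G →* GL (Fin n) A) (σ : G) : mp F ρ σ * mp F ρ σ⁻¹ = 1 := by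
  rw [← mp_mul, mul_inv_cancel, mp_one]

/-- the elements which commute with the map `X` -/
def itw (ρ : G →* GL (Fin n) A) (ρ' : G →* GL (Fin n') A) (X : Matrix (Fin n') (Fin n) F) :
    Subgroup G where
  carrier := {σ | X * mp F ρ σ = mp F ρ' σ * X}
  mul_mem' := by
    intro a b ha hb
    show X * mp F ρ (a * b) = mp F ρ' (a * b) * X
    have ha' : X * mp F ρ a = mp F ρ' a * X := ha
    have hb' : X * mp F ρ b = mp F ρ' b * X := hb
    rw [mp_mul, mp_mul, ← Matrix.mul_assoc, ha', Matrix.mul_assoc, hb', Matrix.mul_assoc]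
  one_mem' := by
    show X * mp F ρ 1 = mp F ρ' 1 * X
    rw [mp_one, mp_one, Matrix.mul_one, Matrix.one_mul]
  inv_mem' := by
    intro a ha
    show X * mp F ρ a⁻¹ = mp F ρ' a⁻¹ * X
    have ha' : X * mp F ρ a = mp F ρ' a * X := ha
    calc X * mp F ρ a⁻¹ = (mp F ρ' a⁻¹ * mp F ρ' a) * (X * mp F ρ a⁻¹) := by
          rw [mp_inv_mul, Matrix.one_mul]
      _ = mp F ρ' a⁻¹ * ((mp F ρ' a * X) * mp F ρ a⁻¹) := by simp only [Matrix.mul_assoc]
      _ = mp F ρ' a⁻¹ * ((X * mp F ρ a) * mp F ρ a⁻¹) := by rw [ha']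
      _ = mp F ρ' a⁻¹ * X := by rw [Matrix.mul_assoc X, mp_mul_inv, Matrix.mul_one]

lemma mem_itw {ρ : G →* GL (Fin n) A} {ρ' : G →* GL (Fin n') A} {X : Matrix (Fin n') (Fin n) F}
    {σ : G} : σ ∈ itw ρ ρ' X ↔ X * mp F ρ σ = mp F ρ' σ * X := Iff.rfl

lemma InI.mulR {I : Ideal A} {m' : ℕ} {Z : Matrix (Fin m') (Fin n) A}
    (hZ : ∀ i j, Z i j ∈ I) (W : Matrix (Fin n) (Fin n') A) : ∀ i j, (Z * W) i j ∈ I := fun i j => by
  rw [Matrix.mul_apply]
  exact Ideal.sum_mem _ fun k _ => Ideal.mul_mem_right _ _ (hZ i k)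

lemma InI.mulL' {I : Ideal A} {m' : ℕ} {Z : Matrix (Fin n) (Fin n') A}
    (hZ : ∀ i j, Z i j ∈ I) (W : Matrix (Fin m') (Fin n) A) : ∀ i j, (W * Z) i j ∈ I := fun i j => by
  rw [Matrix.mul_apply]
  exact Ideal.sum_mem _ fun k _ => Ideal.mul_mem_left _ _ (hZ k j)

lemma itw_of_lim (ρ : G →* GL (Fin n) A) (ρ' : G →* GL (Fin n') A) (X : Matrix (Fin n') (Fin n) F)
    {x : G} (hx : ∀ m : ℕ, ∃ δ ∈ itw ρ ρ' X, δ⁻¹ * x ∈ cong ρ m ⊓ cong ρ' m) : x ∈ itw ρ ρ' X := by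
  classical
  obtain ⟨⟨b, hb⟩, hb2⟩ := IsLocalization.exist_integer_multiples_of_finite
    (nonZeroDivisors A) (fun ij : Fin n' × Fin n => X ij.1 ij.2)
  have hb0 : algebraMap A F b ≠ 0 := IsLocalization.to_map_ne_zero_of_mem_nonZeroDivisors F le_rfl hb
  choose y hy using hb2
  set Y : Matrix (Fin n') (Fin n) A := fun i j => y (i, j) with hY
  have hYX : Y.map (algebraMap A F) = algebraMap A F b • X := by
    ext i j
    rw [Matrix.map_apply, Matrix.smul_apply, hY, hy, Algebra.smul_def]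
    rfl
  have hinj : Function.Injective (fun M : Matrix (Fin n') (Fin n) A => M.map (algebraMap A F)) :=
    Matrix.map_injective (IsFractionRing.injective A F)
  have hiff : ∀ σ : G, σ ∈ itw ρ ρ' X ↔ Y * (ρ σ : Matrix (Fin n) (Fin n) A) =
      (ρ' σ : Matrix (Fin n') (Fin n') A) * Y := by
    intro σ
    rw [mem_itw]
    constructor
    · intro h
      apply hinj
      show (Y * (ρ σ : Matrix (Fin n) (Fin n) A)).map (algebraMap A F) =
        ((ρ' σ : Matrix (Fin n') (Fin n') A) * Y).map (algebraMap A F)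
      rw [Matrix.map_mul, Matrix.map_mul, hYX, Matrix.smul_mul, Matrix.mul_smul]
      exact congrArg (fun Z => algebraMap A F b • Z) h
    · intro h
      have h1 := congrArg (fun M : Matrix (Fin n') (Fin n) A => M.map (algebraMap A F)) h
      rw [Matrix.map_mul, Matrix.map_mul, hYX, Matrix.smul_mul, Matrix.mul_smul] at h1
      have h2 := congrArg (fun Z => (algebraMap A F b)⁻¹ • Z) h1
      simp only [smul_smul, inv_mul_cancel₀ hb0, one_smul] at h2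
      exact h2
  rw [hiff]
  rw [← sub_eq_zero]
  ext i j
  have hbot : (⨅ k : ℕ, maximalIdeal A ^ k) = ⊥ :=
    Ideal.iInf_pow_eq_bot_of_isLocalRing (maximalIdeal A) (Ideal.IsPrime.ne_top inferInstance)
  have hmem : (Y * (ρ x : Matrix (Fin n) (Fin n) A) - (ρ' x : Matrix (Fin n') (Fin n') A) * Y) i j ∈
      (⨅ k : ℕ, maximalIdeal A ^ k) := by
    rw [Ideal.mem_iInf]
    intro k
    obtain ⟨δ, hδ, hu, hu'⟩ := hx k
    have h1 := (hiff δ).1 hδ
    have e1 : (ρ x : Matrix (Fin n) (Fin n) A) = (ρ δ : Matrix (Fin n) (Fin n) A) +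
        (ρ δ : Matrix (Fin n) (Fin n) A) * ((ρ (δ⁻¹ * x) : Matrix (Fin n) (Fin n) A) - 1) := by
      rw [Matrix.mul_sub, Matrix.mul_one, ← Units.val_mul, ← map_mul, mul_inv_cancel_left]
      abel
    have e2 : (ρ' x : Matrix (Fin n') (Fin n') A) = (ρ' δ : Matrix (Fin n') (Fin n') A) +
        (ρ' δ : Matrix (Fin n') (Fin n') A) * ((ρ' (δ⁻¹ * x) : Matrix (Fin n') (Fin n') A) - 1) := by
      rw [Matrix.mul_sub, Matrix.mul_one, ← Units.val_mul, ← map_mul, mul_inv_cancel_left]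
      abel
    have e3 : Y * (ρ x : Matrix (Fin n) (Fin n) A) - (ρ' x : Matrix (Fin n') (Fin n') A) * Y =
        Y * ((ρ δ : Matrix (Fin n) (Fin n) A) * ((ρ (δ⁻¹ * x) : Matrix (Fin n) (Fin n) A) - 1)) -
        (ρ' δ : Matrix (Fin n') (Fin n') A) *
          ((ρ' (δ⁻¹ * x) : Matrix (Fin n') (Fin n') A) - 1) * Y := by
      rw [e1, e2, Matrix.mul_add, Matrix.add_mul, h1]
      abel
    rw [e3, Matrix.sub_apply]
    refine sub_mem ?_ ?_
    · exact InI.mulL' (InI.mulL' (mem_cong.1 hu) _) _ i j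
    · exact InI.mulR (InI.mulL' (mem_cong.1 hu') _) _ i j
  rw [hbot] at hmem
  exact hmem

lemma cong_anti (ρ : G →* GL (Fin n) A) {m m' : ℕ} (h : m ≤ m') : cong ρ m' ≤ cong ρ m :=
  fun _ hx => mem_cong.2 ((mem_cong.1 hx).mono (Ideal.pow_le_pow_right h))

/-- the subgroup of the elements commuting with `X` is closed -/
lemma itw_closed [TopologicalSpace G] [IsTopologicalGroup G] [TopologicalSpace A]
    (hA : IsAdic (maximalIdeal A)) {ρ : G →* GL (Fin n) A} {ρ' : G →* GL (Fin n') A}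
    (hρ : ∀ i j, Continuous fun σ => (ρ σ : Matrix (Fin n) (Fin n) A) i j)
    (hρ' : ∀ i j, Continuous fun σ => (ρ' σ : Matrix (Fin n') (Fin n') A) i j)
    (X : Matrix (Fin n') (Fin n) F) : IsClosed (itw ρ ρ' X : Set G) := by
  refine isClosed_of_closure_subset fun g hg => ?_
  refine itw_of_lim ρ ρ' X fun m => ?_
  have hopen : IsOpen ((fun x => x⁻¹ * g) ⁻¹' ((cong ρ m ⊓ cong ρ' m : Subgroup G) : Set G)) :=
    ((cong_open hA hρ m).inter (cong_open hA hρ' m)).preimage (continuous_inv.mul continuous_const)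
  obtain ⟨x, hx1, hx2⟩ := mem_closure_iff.1 hg _ hopen (by
    show g⁻¹ * g ∈ cong ρ m ⊓ cong ρ' m
    rw [inv_mul_cancel]
    exact one_mem _)
  exact ⟨x, hx2, hx1⟩

/-- **Maps which commute with a dense subgroup.** -/
theorem itw_of_dense {ρ : G →* GL (Fin n) A} {ρ' : G →* GL (Fin n') A} {D : Set G}
    (happ : ∀ (m : ℕ) (g : G), ∃ δ ∈ D, δ⁻¹ * g ∈ cong ρ m ∧ δ⁻¹ * g ∈ cong ρ' m)
    {X : Matrix (Fin n') (Fin n) F} (hX : ∀ δ ∈ D, X * mp F ρ δ = mp F ρ' δ * X) (g : G) :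
    X * mp F ρ g = mp F ρ' g * X := by
  refine mem_itw.1 (itw_of_lim ρ ρ' X fun m => ?_)
  obtain ⟨δ, hδ, h1, h2⟩ := happ m g
  exact ⟨δ, hX δ hδ, h1, h2⟩

/-- **Maps which potentially commute with a dense subgroup.** -/
theorem itw_open [TopologicalSpace G] [IsTopologicalGroup G] [TopologicalSpace A]
    (hA : IsAdic (maximalIdeal A)) {ρ : G →* GL (Fin n) A} {ρ' : G →* GL (Fin n') A}
    (hρ : ∀ i j, Continuous fun σ => (ρ σ : Matrix (Fin n) (Fin n) A) i j)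
    (hρ' : ∀ i j, Continuous fun σ => (ρ' σ : Matrix (Fin n') (Fin n') A) i j)
    {H : Subgroup G} (hH : H.FiniteIndex) {D : Set H}
    (happ : ∀ (m : ℕ) (g : H), ∃ δ ∈ D, ((δ⁻¹ * g : H) : G) ∈ cong ρ m ∧
      ((δ⁻¹ * g : H) : G) ∈ cong ρ' m)
    {R : Set G} (hRf : R.Finite) {X : Matrix (Fin n') (Fin n) F}
    (hR : ∀ δ ∈ D, ∃ r ∈ R, r⁻¹ * (δ : G) ∈ itw ρ ρ' X) :
    (itw ρ ρ' X).FiniteIndex ∧ IsOpen (itw ρ ρ' X : Set G) := by
  have h1 : (itw ρ ρ' X).FiniteIndex := by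
    refine fin_of_lim_sub (V := fun m => cong ρ m ⊓ cong ρ' m)
      (fun m m' hm => inf_le_inf (cong_anti ρ hm) (cong_anti ρ' hm))
      (fun x hx => itw_of_lim ρ ρ' X hx) hH (D := D) (fun m g => ?_) hRf hR
    obtain ⟨δ, hδ, h⟩ := happ m g
    exact ⟨δ, hδ, h⟩
  exact ⟨h1, Subgroup.isOpen_of_isClosed_of_finiteIndex _ (itw_closed hA hρ hρ' X)⟩

/-- **Twists.** -/
theorem twist [TopologicalSpace G] [IsTopologicalGroup G] (hn : 0 < n)
    {ρ ρ' : G →* GL (Fin n) A} {X : GL (Fin n) F}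
    (hf : (itw ρ ρ' (X : Matrix (Fin n) (Fin n) F)).FiniteIndex)
    (ho : IsOpen (itw ρ ρ' (X : Matrix (Fin n) (Fin n) F) : Set G))
    (hend : ∀ N : Subgroup G, N.FiniteIndex → IsOpen (N : Set G) →
      ∀ Z : Matrix (Fin n) (Fin n) F, (∀ σ ∈ N, Z * mp F ρ σ = mp F ρ σ * Z) →
        ∃ c : F, Z = c • (1 : Matrix (Fin n) (Fin n) F)) :
    ∃ (χ : G →* Fˣ) (k : ℕ), 0 < k ∧ (∀ σ, χ σ ^ k = 1) ∧
      (∃ U : Subgroup G, IsOpen (U : Set G) ∧ ∀ σ ∈ U, χ σ = 1) ∧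
      ∀ σ, mp F ρ' σ * (X : Matrix (Fin n) (Fin n) F) =
        (χ σ : F) • ((X : Matrix (Fin n) (Fin n) F) * mp F ρ σ) := by
  classical
  set C := itw ρ ρ' (X : Matrix (Fin n) (Fin n) F) with hC
  set N := C.normalCore with hN
  have hNn : N.Normal := C.normalCore_normal
  have hNf : N.FiniteIndex := inferInstance
  have hCc : IsClosed (C : Set G) := Subgroup.isClosed_of_isOpen _ ho
  have hNo : IsOpen (N : Set G) :=
    Subgroup.isOpen_of_isClosed_of_finiteIndex _ (C.normalCore_isClosed hCc)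
  have hXX : ((X⁻¹ : GL (Fin n) F) : Matrix (Fin n) (Fin n) F) * (X : Matrix (Fin n) (Fin n) F) = 1 := by
    rw [← Units.val_mul, inv_mul_cancel, Units.val_one]
  have hXX' : (X : Matrix (Fin n) (Fin n) F) * ((X⁻¹ : GL (Fin n) F) : Matrix (Fin n) (Fin n) F) = 1 := by
    rw [← Units.val_mul, mul_inv_cancel, Units.val_one]
  have hex : ∀ τ : G, ∃ c : F, mp F ρ' τ * (X : Matrix (Fin n) (Fin n) F) =
      c • ((X : Matrix (Fin n) (Fin n) F) * mp F ρ τ) := by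
    intro τ
    obtain ⟨c, hc⟩ := hend N hNf hNo
      (((X⁻¹ : GL (Fin n) F) : Matrix (Fin n) (Fin n) F) * (mp F ρ' τ *
        (X : Matrix (Fin n) (Fin n) F) * mp F ρ τ⁻¹)) (fun σ hσ => by
      have h1 : τ⁻¹ * σ * τ ∈ C := by
        have := (hNn.conj_mem σ hσ τ⁻¹)
        rw [inv_inv] at this
        exact C.normalCore_le this
      have h2 : σ ∈ C := C.normalCore_le hσ
      have h1' : (X : Matrix (Fin n) (Fin n) F) * mp F ρ (τ⁻¹ * σ * τ) =
        mp F ρ' (τ⁻¹ * σ * τ) * (X : Matrix (Fin n) (Fin n) F) := h1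
      have h2' : (X : Matrix (Fin n) (Fin n) F) * mp F ρ σ =
        mp F ρ' σ * (X : Matrix (Fin n) (Fin n) F) := h2
      have h3 : mp F ρ' τ * (X : Matrix (Fin n) (Fin n) F) * mp F ρ τ⁻¹ * mp F ρ σ =
          mp F ρ' σ * (mp F ρ' τ * (X : Matrix (Fin n) (Fin n) F) * mp F ρ τ⁻¹) := by
        have e1 : mp F ρ τ⁻¹ * mp F ρ σ = mp F ρ (τ⁻¹ * σ * τ) * mp F ρ τ⁻¹ := by
          rw [← mp_mul, ← mp_mul]
          congr 1
          group
        have e2 : mp F ρ' τ * mp F ρ' (τ⁻¹ * σ * τ) = mp F ρ' σ * mp F ρ' τ := by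
          rw [← mp_mul, ← mp_mul]
          congr 1
          group
        calc mp F ρ' τ * (X : Matrix (Fin n) (Fin n) F) * mp F ρ τ⁻¹ * mp F ρ σ
            = mp F ρ' τ * (X : Matrix (Fin n) (Fin n) F) * (mp F ρ τ⁻¹ * mp F ρ σ) := by
              rw [Matrix.mul_assoc]
          _ = mp F ρ' τ * ((X : Matrix (Fin n) (Fin n) F) * mp F ρ (τ⁻¹ * σ * τ)) * mp F ρ τ⁻¹ := by
              rw [e1]; simp only [Matrix.mul_assoc]
          _ = mp F ρ' τ * mp F ρ' (τ⁻¹ * σ * τ) * (X : Matrix (Fin n) (Fin n) F) * mp F ρ τ⁻¹ := by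
              rw [h1']; simp only [Matrix.mul_assoc]
          _ = _ := by rw [e2]; simp only [Matrix.mul_assoc]
      have h4 : ((X⁻¹ : GL (Fin n) F) : Matrix (Fin n) (Fin n) F) * mp F ρ' σ =
          mp F ρ σ * ((X⁻¹ : GL (Fin n) F) : Matrix (Fin n) (Fin n) F) := by
        calc ((X⁻¹ : GL (Fin n) F) : Matrix (Fin n) (Fin n) F) * mp F ρ' σ
            = ((X⁻¹ : GL (Fin n) F) : Matrix (Fin n) (Fin n) F) * (mp F ρ' σ *
              (X : Matrix (Fin n) (Fin n) F)) * ((X⁻¹ : GL (Fin n) F) : Matrix (Fin n) (Fin n) F) := by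
              rw [Matrix.mul_assoc, Matrix.mul_assoc, hXX', Matrix.mul_one]
          _ = ((X⁻¹ : GL (Fin n) F) : Matrix (Fin n) (Fin n) F) * ((X : Matrix (Fin n) (Fin n) F) *
              mp F ρ σ) * ((X⁻¹ : GL (Fin n) F) : Matrix (Fin n) (Fin n) F) := by rw [h2']
          _ = _ := by rw [← Matrix.mul_assoc (((X⁻¹ : GL (Fin n) F) : Matrix (Fin n) (Fin n) F)), hXX,
              Matrix.one_mul]
      rw [Matrix.mul_assoc, h3, ← Matrix.mul_assoc, h4, Matrix.mul_assoc])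
    refine ⟨c, ?_⟩
    have h5 := congrArg (fun Z => (X : Matrix (Fin n) (Fin n) F) * Z * mp F ρ τ) hc
    rw [← Matrix.mul_assoc, hXX', Matrix.one_mul, Matrix.mul_assoc _ (mp F ρ τ⁻¹), mp_inv_mul,
      Matrix.mul_one, Matrix.mul_smul, Matrix.mul_one, Matrix.smul_mul] at h5
    exact h5
  choose c hc using hex
  have : Nonempty (Fin n) := ⟨⟨0, hn⟩⟩
  have hinv : ∀ σ : G, IsUnit ((X : Matrix (Fin n) (Fin n) F) * mp F ρ σ) := by
    intro σ
    refine ⟨⟨(X : Matrix (Fin n) (Fin n) F) * mp F ρ σ, mp F ρ σ⁻¹ *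
      ((X⁻¹ : GL (Fin n) F) : Matrix (Fin n) (Fin n) F), ?_, ?_⟩, rfl⟩
    · rw [Matrix.mul_assoc, ← Matrix.mul_assoc (mp F ρ σ), mp_mul_inv, Matrix.one_mul, hXX']
    · rw [Matrix.mul_assoc, ← Matrix.mul_assoc _ (X : Matrix (Fin n) (Fin n) F), hXX,
        Matrix.one_mul, mp_inv_mul]
  have huniq : ∀ (σ : G) (a b : F), a • ((X : Matrix (Fin n) (Fin n) F) * mp F ρ σ) =
      b • ((X : Matrix (Fin n) (Fin n) F) * mp F ρ σ) → a = b := by
    intro σ a b hab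
    by_contra hne
    have h1 : (a - b) • ((X : Matrix (Fin n) (Fin n) F) * mp F ρ σ) = 0 := by
      rw [sub_smul, hab, sub_self]
    have h2 := (smul_eq_zero.1 h1).resolve_left (sub_ne_zero.2 hne)
    have h3 := hinv σ
    rw [h2] at h3
    exact not_isUnit_zero h3
  have hmul : ∀ σ τ, c (σ * τ) = c σ * c τ := by
    intro σ τ
    apply huniq (σ * τ)
    rw [← hc, mp_mul, mp_mul, Matrix.mul_assoc, hc τ, Matrix.mul_smul, ← Matrix.mul_assoc, hc σ,
      Matrix.smul_mul, smul_smul, mul_comm (c τ), Matrix.mul_assoc]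
  have hCone : ∀ σ ∈ C, c σ = 1 := by
    intro σ hσ
    apply huniq σ
    rw [← hc, one_smul]
    exact (mem_itw.1 hσ).symm
  have hone : c 1 = 1 := hCone 1 (one_mem _)
  refine ⟨{ toFun := fun σ => ⟨c σ, c σ⁻¹, ?_, ?_⟩, map_one' := ?_, map_mul' := ?_ }, N.index,
    Nat.pos_of_ne_zero hNf.index_ne_zero, ?_, ⟨C, ho, ?_⟩, ?_⟩
  · rw [← hmul, mul_inv_cancel, hone]
  · rw [← hmul, inv_mul_cancel, hone]
  · apply Units.ext
    exact hone
  · intro σ τ
    apply Units.ext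
    exact hmul σ τ
  · intro σ
    rw [← map_pow]
    apply Units.ext
    show c (σ ^ N.index) = 1
    exact hCone _ (C.normalCore_le (N.pow_index_mem σ))
  · intro σ hσ
    apply Units.ext
    exact hCone σ hσ
  · intro σ
    exact hc σ

/-- **Stable lines**: the two-dimensional case with density in a subgroup of finite index. -/
theorem dih_sub [TopologicalSpace G] [IsTopologicalGroup G] [TopologicalSpace A]
    (hA : IsAdic (maximalIdeal A)) {ρ : G →* GL (Fin 2) A}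
    (hρ : ∀ i j, Continuous fun σ => (ρ σ : Matrix (Fin 2) (Fin 2) A) i j)
    {H : Subgroup G} (hH : H.FiniteIndex) {D : Set H}
    (happ : ∀ (m : ℕ) (g : H), ∃ δ ∈ D, ((δ⁻¹ * g : H) : G) ∈ cong ρ m)
    {D' : Subgroup G} {R : Set G} (hRf : R.Finite) (hR : ∀ δ ∈ D, ∃ r ∈ R, r⁻¹ * (δ : G) ∈ D')
    (hirr : Irr F ρ)
    {v : Fin 2 → F} (hv : v ≠ 0) (hD' : ∀ δ ∈ D', ∃ c : F, act F ρ δ v = c • v)
    (hdist : ∃ δ ∈ D', ∀ k : ℕ, 0 < k → ∀ c : F, act F ρ (δ ^ k) v = c • v →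
      c ^ 2 ≠ algebraMap A F ((ρ (δ ^ k) : Matrix (Fin 2) (Fin 2) A).det)) :
    ∃ T : Subgroup G, T.index = 2 ∧ IsOpen (T : Set G) ∧ ∀ σ ∈ T, ∃ c : F, act F ρ σ v = c • v := by
  classical
  set W : Submodule F (Fin 2 → F) := Submodule.span F {v} with hW
  have hle : D' ≤ stb ρ W := by
    intro δ hδ
    obtain ⟨c, hc⟩ := hD' δ hδ
    refine mem_stb_line ρ hv ?_
    rw [hc]
    exact Submodule.smul_mem _ _ (Submodule.mem_span_singleton_self v)
  have hfin : (stb ρ W).FiniteIndex := by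
    refine fin_of_lim_sub (V := fun m => cong ρ m) (fun m m' hm => cong_anti ρ hm)
      (fun x hx => stb_of_lim ρ W (D' := stb ρ W) le_rfl hx) hH (D := D) happ hRf
      (fun δ hδ => ?_)
    obtain ⟨r, hr, h⟩ := hR δ hδ
    exact ⟨r, hr, hle h⟩
  have hq : Finite (G ⧸ stb ρ W) := inferInstance
  obtain ⟨δ₀, hδ₀, hk⟩ := hdist
  refine Pool.Agent.N817.dih_of_line (D := ⊤) (D' := stb ρ W) hA hρ
    (fun m g => ⟨g, trivial, by rw [inv_mul_cancel]; exact one_mem _⟩)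
    (R := Set.range fun x : G ⧸ stb ρ W => x.out) (Set.finite_range _) (fun δ _ => ?_) hirr hv
    (fun σ hσ => ?_) ⟨δ₀, hle hδ₀, hk⟩
  · exact ⟨_, ⟨(QuotientGroup.mk δ : G ⧸ stb ρ W), rfl⟩, QuotientGroup.eq.1 (QuotientGroup.out_eq' _)⟩
  · obtain ⟨c, hc⟩ := Submodule.mem_span_singleton.1
      ((hσ v).1 (Submodule.mem_span_singleton_self v))
    exact ⟨c, hc.symm⟩

end rep

end Pool.Agent.V7H44.DV
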