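import Pool.Agent.V7H44.DV.Quad

/-!
# One place decides: definitions for the statements
-/

set_option autoImplicit false

namespace Pool.Agent.V7H44.DVS

open IsLocalRing Matrix

section group

variable {G : Type} [Group G] [TopologicalSpace G]

/-- `N` is an open normal subgroup of index `k` of the subgroup `H`. -/
structure OpenNormal (N H : Subgroup G) (k : ℕ) : Prop where
  le : N ≤ H
  isOpen : IsOpen (N : Set G)
  normal : ∀ σ ∈ N, ∀ r ∈ H, r * σ * r⁻¹ ∈ N
  index : N.relIndex H = k

/-- No open normal subgroup of index `p` of `H` which contains the elements of `T` in `H` contains the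
elements of `D` in `H`. If `H` is the absolute Galois group of a number field `M`, `T` the union of the
inertia groups of the finite places which are not in `S`, and `D` the decomposition group of the place
`w`, then this says that `w` does not split completely in any cyclic extension of `M` of degree `p`
which is unramified at the finite places which are not in `S`. -/
def NonSplit (p : ℕ) (H : Subgroup G) (T D : Set G) : Prop :=
  ∀ V : Subgroup G, OpenNormal V H p → (∀ σ ∈ H, σ ∈ T → σ ∈ V) → ∃ δ ∈ H, δ ∈ D ∧ δ ∉ V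

/-- `L` is the absolute Galois group of a field contained in a finite Galois `p`-extension of the
number field with absolute Galois group `K`, and the inertia groups in `T` act trivially on this
`p`-extension. -/
def InPExtension (p : ℕ) (K L : Subgroup G) (T : Set G) : Prop :=
  L ≤ K ∧ ∃ (N : Subgroup G) (a : ℕ), N ≤ L ∧ OpenNormal N K (p ^ a) ∧ ∀ σ ∈ K, σ ∈ T → σ ∈ N

/-- The set `X` is contained in the union of finitely many left cosets of the subgroup `D'` of
`H`. -/
def FinitelyCovered (H : Subgroup G) (X : Set G) (D' : Subgroup G) : Prop :=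
  D' ≤ H ∧ ∃ R : Set G, R.Finite ∧ ∀ δ ∈ X, ∃ r ∈ R, r⁻¹ * δ ∈ D'

variable {A : Type} [CommRing A] {n n' : ℕ}

/-- `ρ` is a continuous representation of the subgroup `H` (the absolute Galois group of the number
field `K`) of dimension `n` over `A` (only its values on `H` matter); on the subgroup `H'` (the
absolute Galois group of the number field `M`) it is residually unipotent, and trivial on `T` (the
inertia groups of the finite places not in `S`). -/
structure IsRep [IsLocalRing A] [TopologicalSpace A] (H H' : Subgroup G) (T : Set G)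
    (ρ : G → Matrix (Fin n) (Fin n) A) : Prop where
  one : ρ 1 = 1
  mul : ∀ σ ∈ H, ∀ τ ∈ H, ρ (σ * τ) = ρ σ * ρ τ
  cont : ∀ i j, ContinuousOn (fun σ => ρ σ i j) (H : Set G)
  unipotent : ∀ σ ∈ H', ∃ m : ℕ, ∀ i j, ((ρ σ - 1) ^ m) i j ∈ maximalIdeal A
  unramified : ∀ σ ∈ H', σ ∈ T → ρ σ = 1

variable (F : Type) [Field F] [Algebra A F]

/-- The matrix over the fraction field `F`. -/
def mat (ρ : G → Matrix (Fin n) (Fin n) A) (σ : G) : Matrix (Fin n) (Fin n) F :=
  (ρ σ).map (algebraMap A F)

/-- The representation of `H` on `V = F ^ n` is irreducible. -/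
def Irreducible (H : Subgroup G) (ρ : G → Matrix (Fin n) (Fin n) A) : Prop :=
  ∀ W : Submodule F (Fin n → F), (∀ σ ∈ H, ∀ w ∈ W, mat F ρ σ *ᵥ w ∈ W) → W = ⊥ ∨ W = ⊤

/-- `V = F ^ 2` is potentially ordinary or multiplicative on `X`: finitely many left cosets of a
subgroup `D'` cover `X`, a line `F v` is stable under `D'`, and the ratio of the characters of `D'` on
this line and on the quotient has infinite order: for some `δ` in `D'` and all `k > 0` the square of the
eigenvalue of `δ ^ k` on the line is not the determinant of `δ ^ k`. -/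
def PotentiallyOrdinary (H : Subgroup G) (ρ : G → Matrix (Fin 2) (Fin 2) A) (X : Set G) : Prop :=
  ∃ (D' : Subgroup G) (v : Fin 2 → F), FinitelyCovered H X D' ∧ v ≠ 0 ∧
    (∀ δ ∈ D', ∃ c : F, mat F ρ δ *ᵥ v = c • v) ∧
    ∃ δ ∈ D', ∀ k : ℕ, 0 < k → ∀ c : F, mat F ρ (δ ^ k) *ᵥ v = c • v →
      c ^ 2 ≠ (mat F ρ (δ ^ k)).det

/-- `V` is dihedral: a subgroup of index two of `H` (the absolute Galois group of a quadratic
extension) preserves a line. -/
def Dihedral (H : Subgroup G) (ρ : G → Matrix (Fin 2) (Fin 2) A) : Prop :=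
  ∃ (U : Subgroup G) (v : Fin 2 → F), OpenNormal U H 2 ∧ v ≠ 0 ∧
    ∀ σ ∈ U, ∃ c : F, mat F ρ σ *ᵥ v = c • v

/-- The linear map `X : V → V'` commutes with `σ`. -/
def Commutes (ρ : G → Matrix (Fin n) (Fin n) A) (ρ' : G → Matrix (Fin n') (Fin n') A)
    (X : Matrix (Fin n') (Fin n) F) (σ : G) : Prop :=
  X * mat F ρ σ = mat F ρ' σ * X

/-- All linear maps of `V = F ^ n` which commute with an open subgroup of `H` are homotheties. -/
def NoEndomorphisms (H : Subgroup G) (ρ : G → Matrix (Fin n) (Fin n) A) : Prop :=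
  ∀ U ≤ H, IsOpen (U : Set G) → ∀ Z : Matrix (Fin n) (Fin n) F,
    (∀ σ ∈ U, Commutes F ρ ρ Z σ) → ∃ c : F, Z = c • (1 : Matrix (Fin n) (Fin n) F)

/-- `ρ'` is isomorphic, by the matrix `X`, to the twist of `ρ` by a continuous character `χ` of finite
order of `H`. -/
def IsTwist (H : Subgroup G) (ρ ρ' : G → Matrix (Fin n) (Fin n) A)
    (X : Matrix (Fin n) (Fin n) F) : Prop :=
  ∃ (χ : G → F) (k : ℕ), 0 < k ∧ (∀ σ ∈ H, ∀ τ ∈ H, χ (σ * τ) = χ σ * χ τ) ∧
    (∀ σ ∈ H, χ σ ^ k = 1) ∧ (∃ U ≤ H, IsOpen (U : Set G) ∧ ∀ σ ∈ U, χ σ = 1) ∧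
    ∀ σ ∈ H, mat F ρ' σ * X = χ σ • (X * mat F ρ σ)

end group

/-- `A` is a Noetherian local domain with its adic topology, with a finite residue field of
characteristic `p`, and `F` is its fraction field; for example the ring of integers of a finite
extension of `ℚ_p`. -/
structure Coefficients (p : ℕ) (A F : Type) [CommRing A] [IsLocalRing A]
    [TopologicalSpace A] [Field F] [Algebra A F] : Prop where
  noetherian : IsNoetherianRing A
  fraction : IsFractionRing A F
  adic : IsAdic (maximalIdeal A)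
  finite : Finite (ResidueField A)
  mem : (p : A) ∈ maximalIdeal A

/-! ### Number fields -/

/-- An algebraic closure of `ℚ`. -/
abbrev QBar : Type := AlgebraicClosure ℚ

/-- The absolute Galois group of `ℚ`. The absolute Galois groups of the number fields `K ⊂ ℚ̄` are
its open subgroups. -/
def AbsGal : Type := QBar ≃ₐ[ℚ] QBar

/-- its group structure -/
noncomputable instance instGroupAbsGal : Group AbsGal := AlgEquiv.aut (R := ℚ) (A₁ := QBar)

/-- its Krull topology -/
noncomputable instance instTopAbsGal : TopologicalSpace AbsGal := krullTopology ℚ QBar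

/-- The action of the Galois group on `ℚ̄`. -/
noncomputable def app (σ : AbsGal) (x : QBar) : QBar := (show QBar ≃ₐ[ℚ] QBar from σ) x

/-- The places of `ℚ̄` above `ℓ`: the embeddings into an algebraic closure of `ℚ_ℓ`. -/
abbrev Place (ℓ : ℕ) [Fact ℓ.Prime] : Type := QBar →ₐ[ℚ] PadicAlgCl ℓ

/-- The decomposition group of the place `ι`. -/
def Dec {ℓ : ℕ} [Fact ℓ.Prime] (ι : Place ℓ) : Set AbsGal :=
  {σ | ∃ τ : PadicAlgCl ℓ ≃ₐ[ℚ_[ℓ]] PadicAlgCl ℓ, ∀ x, τ (ι x) = ι (app σ x)}

/-- Its inertia group: the automorphisms which are trivial on the residue field. -/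
def Inr {ℓ : ℕ} [Fact ℓ.Prime] (ι : Place ℓ) : Set AbsGal :=
  {σ | ∃ τ : PadicAlgCl ℓ ≃ₐ[ℚ_[ℓ]] PadicAlgCl ℓ, (∀ x, τ (ι x) = ι (app σ x)) ∧
    ∀ z : PadicAlgCl ℓ, ‖z‖ ≤ 1 → ‖τ z - z‖ < 1}

/-- The sets `S` of finite places of `ℚ̄`. -/
def PlaceSet : Type := ∀ (ℓ : ℕ) [Fact ℓ.Prime], Set (Place ℓ)

/-- The union of the inertia groups of the finite places which are not in `S`. -/
def outside (S : PlaceSet) : Set AbsGal :=
  {σ | ∃ (ℓ : ℕ) (_ : Fact ℓ.Prime) (ι : Place ℓ), ι ∉ S ℓ ∧ σ ∈ Inr ι}

/-- All the places above the prime numbers in `P`. -/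
def above (P : Set ℕ) : PlaceSet := fun ℓ _ => {_ι | ℓ ∈ P}

/-- `S` is a set of places of the field with absolute Galois group `H`: it contains with a place `ι'`
the conjugate places `ι`. -/
def IsPlaceSet (H : Subgroup AbsGal) (S : PlaceSet) : Prop :=
  ∀ (ℓ : ℕ) [Fact ℓ.Prime] (ι ι' : Place ℓ), ∀ r ∈ H, (∀ x, ι' x = ι (app r x)) →
    ι' ∈ S ℓ → ι ∈ S ℓ

end Pool.Agent.V7H44.DVS
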